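import Pool.Agent.Helper1.SEP.Net

/-!
# TOK4 from six named paths
-/

set_option autoImplicit false

namespace Pool.Agent.Helper41.F2

open SimpleGraph Pool.Agent.Helper57.TOK Pool.Agent.Helper1.SEP

variable {V : Type*}

/-- TOK4 with the branch vertices `b0, b1, b2, z`. -/
theorem tok_of_six {G : SimpleGraph V} {c : Sym2 V → ZMod 2} {b0 b1 b2 z : V}
    (A01 : G.Walk b0 b1) (A02 : G.Walk b0 b2) (A12 : G.Walk b1 b2)
    (S0 : G.Walk b0 z) (S1 : G.Walk b1 z) (S2 : G.Walk b2 z)
    (h01 : b0 ≠ b1) (h02 : b0 ≠ b2) (h12 : b1 ≠ b2) (h0 : b0 ≠ z) (h1 : b1 ≠ z) (h2 : b2 ≠ z)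
    (pA01 : A01.IsPath ∧ wt c A01 = 1) (pA02 : A02.IsPath ∧ wt c A02 = 1)
    (pA12 : A12.IsPath ∧ wt c A12 = 1) (pS0 : S0.IsPath ∧ wt c S0 = 1)
    (pS1 : S1.IsPath ∧ wt c S1 = 1) (pS2 : S2.IsPath ∧ wt c S2 = 1)
    (d1 : ∀ x ∈ A01.support, x ∈ A02.support → x = b0)
    (d2 : ∀ x ∈ A01.support, x ∈ A12.support → x = b1)
    (d3 : ∀ x ∈ A02.support, x ∈ A12.support → x = b2)
    (d4 : ∀ x ∈ S0.support, x ∈ S1.support → x = z)
    (d5 : ∀ x ∈ S0.support, x ∈ S2.support → x = z)
    (d6 : ∀ x ∈ S1.support, x ∈ S2.support → x = z)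
    (e1 : ∀ x ∈ A01.support, x ∈ S0.support → x = b0)
    (e2 : ∀ x ∈ A01.support, x ∈ S1.support → x = b1)
    (e3 : ∀ x ∈ A01.support, x ∉ S2.support)
    (e4 : ∀ x ∈ A02.support, x ∈ S0.support → x = b0)
    (e5 : ∀ x ∈ A02.support, x ∉ S1.support)
    (e6 : ∀ x ∈ A02.support, x ∈ S2.support → x = b2)
    (e7 : ∀ x ∈ A12.support, x ∉ S0.support)
    (e8 : ∀ x ∈ A12.support, x ∈ S1.support → x = b1)
    (e9 : ∀ x ∈ A12.support, x ∈ S2.support → x = b2) : HasTOK4s G c := by
  classical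
  let b : Fin 3 → V := ![b0, b1, b2]
  let A : ∀ i j : Fin 3, G.Walk (b i) (b j) := fun i j =>
    match i, j with
    | 0, 0 => Walk.nil
    | 0, 1 => A01
    | 0, 2 => A02
    | 1, 0 => A01.reverse
    | 1, 1 => Walk.nil
    | 1, 2 => A12
    | 2, 0 => A02.reverse
    | 2, 1 => A12.reverse
    | 2, 2 => Walk.nil
  let S : ∀ i : Fin 3, G.Walk (b i) z := fun i =>
    match i with
    | 0 => S0
    | 1 => S1
    | 2 => S2
  refine tok_of_star (b := b) (z := z) A S ?_ ?_ ?_ ?_ ?_ ?_ ?_ ?_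
  · intro i j hij
    fin_cases i <;> fin_cases j <;> first
      | rfl
      | exact absurd hij h01
      | exact absurd hij h02
      | exact absurd hij h12
      | exact absurd hij.symm h01
      | exact absurd hij.symm h02
      | exact absurd hij.symm h12
  · intro i
    fin_cases i
    · exact h0
    · exact h1
    · exact h2
  · intro i j hij
    fin_cases i <;> fin_cases j <;> first
      | exact absurd rfl hij
      | exact pA01
      | exact pA02
      | exact pA12
      | exact ⟨pA01.1.reverse, (wt_reverse c A01).trans pA01.2⟩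
      | exact ⟨pA02.1.reverse, (wt_reverse c A02).trans pA02.2⟩
      | exact ⟨pA12.1.reverse, (wt_reverse c A12).trans pA12.2⟩
  · intro i j hij x hx
    have r1 : ∀ {u v : V} (P : G.Walk u v), x ∈ P.support → x ∈ P.reverse.support := by
      intro u v P h
      rw [Walk.support_reverse, List.mem_reverse]; exact h
    have r2 : ∀ {u v : V} (P : G.Walk u v), x ∈ P.reverse.support → x ∈ P.support := by
      intro u v P h
      rw [Walk.support_reverse, List.mem_reverse] at h; exact h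
    fin_cases i <;> fin_cases j <;> first
      | exact absurd rfl hij
      | exact r1 A01 hx
      | exact r1 A02 hx
      | exact r1 A12 hx
      | exact r2 A01 hx
      | exact r2 A02 hx
      | exact r2 A12 hx
  · intro i j k hij hik hjk x hx hx'
    have r2 : ∀ {u v : V} (P : G.Walk u v), x ∈ P.reverse.support → x ∈ P.support := by
      intro u v P h
      rw [Walk.support_reverse, List.mem_reverse] at h; exact h
    fin_cases i <;> fin_cases j <;> first
      | exact absurd rfl hij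
      | skip
    all_goals fin_cases k <;> first
      | exact absurd rfl hik
      | exact absurd rfl hjk
      | exact d1 x hx hx'
      | exact d1 x hx' hx
      | exact d2 x (r2 A01 hx) hx'
      | exact d2 x (r2 A01 hx') hx
      | exact d3 x (r2 A02 hx) (r2 A12 hx')
      | exact d3 x (r2 A02 hx') (r2 A12 hx)
  · intro i
    fin_cases i
    · exact pS0
    · exact pS1
    · exact pS2
  · intro i j hij x hx hx'
    fin_cases i <;> fin_cases j <;> first
      | exact absurd rfl hij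
      | exact d4 x hx hx'
      | exact d4 x hx' hx
      | exact d5 x hx hx'
      | exact d5 x hx' hx
      | exact d6 x hx hx'
      | exact d6 x hx' hx
  · intro i j k hij x hx hx'
    have r2 : ∀ {u v : V} (P : G.Walk u v), x ∈ P.reverse.support → x ∈ P.support := by
      intro u v P h
      rw [Walk.support_reverse, List.mem_reverse] at h; exact h
    have c01 : x ∈ A01.support → x = b k ∧ (k = 0 ∨ k = 1) := by
      intro hx
      fin_cases k
      · exact ⟨e1 x hx hx', Or.inl rfl⟩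
      · exact ⟨e2 x hx hx', Or.inr rfl⟩
      · exact absurd hx' (e3 x hx)
    have c02 : x ∈ A02.support → x = b k ∧ (k = 0 ∨ k = 2) := by
      intro hx
      fin_cases k
      · exact ⟨e4 x hx hx', Or.inl rfl⟩
      · exact absurd hx' (e5 x hx)
      · exact ⟨e6 x hx hx', Or.inr rfl⟩
    have c12 : x ∈ A12.support → x = b k ∧ (k = 1 ∨ k = 2) := by
      intro hx
      fin_cases k
      · exact absurd hx' (e7 x hx)
      · exact ⟨e8 x hx hx', Or.inl rfl⟩
      · exact ⟨e9 x hx hx', Or.inr rfl⟩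
    fin_cases i <;> fin_cases j <;> first
      | exact absurd rfl hij
      | exact c01 hx
      | exact c02 hx
      | exact c12 hx
      | exact ⟨(c01 (r2 A01 hx)).1, (c01 (r2 A01 hx)).2.symm⟩
      | exact ⟨(c02 (r2 A02 hx)).1, (c02 (r2 A02 hx)).2.symm⟩
      | exact ⟨(c12 (r2 A12 hx)).1, (c12 (r2 A12 hx)).2.symm⟩

/-- Centre `ctr` adjacent to `b2` and `b3`, a path `Q` of weight one from `b2` to `b3`, and three
paths of weight one from `y` to `ctr`, `b2`, `b3`. -/
theorem tok_of_centre {G : SimpleGraph V} {c : Sym2 V → ZMod 2} {ctr b2 b3 y : V}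
    (a2 : G.Adj ctr b2) (c2 : c s(ctr, b2) = 1) (a3 : G.Adj ctr b3) (c3 : c s(ctr, b3) = 1)
    (Q : G.Walk b2 b3) (P1 : G.Walk y ctr) (P2 : G.Walk y b2) (P3 : G.Walk y b3)
    (hQ : Q.IsPath ∧ wt c Q = 1) (h1 : P1.IsPath ∧ wt c P1 = 1) (h2 : P2.IsPath ∧ wt c P2 = 1)
    (h3 : P3.IsPath ∧ wt c P3 = 1) (n23 : b2 ≠ b3) (yc : y ≠ ctr) (y2 : y ≠ b2) (y3 : y ≠ b3)
    (d12 : ∀ x ∈ P1.support, x ∈ P2.support → x = y)
    (d13 : ∀ x ∈ P1.support, x ∈ P3.support → x = y)
    (d23 : ∀ x ∈ P2.support, x ∈ P3.support → x = y)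
    (q1 : ∀ x ∈ Q.support, x ∉ P1.support)
    (q2 : ∀ x ∈ Q.support, x ∈ P2.support → x = b2)
    (q3 : ∀ x ∈ Q.support, x ∈ P3.support → x = b3) : HasTOK4s G c := by
  have s2 : ∀ x ∈ (Walk.cons a2 Walk.nil : G.Walk ctr b2).support, x = ctr ∨ x = b2 := by
    intro x hx
    simpa only [Walk.support_cons, Walk.support_nil, List.mem_cons, List.not_mem_nil,
      or_false] using hx
  have s3 : ∀ x ∈ (Walk.cons a3 Walk.nil : G.Walk ctr b3).support, x = ctr ∨ x = b3 := by
    intro x hx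
    simpa only [Walk.support_cons, Walk.support_nil, List.mem_cons, List.not_mem_nil,
      or_false] using hx
  have rev : ∀ {u v : V} (P : G.Walk u v), ∀ x, x ∈ P.reverse.support → x ∈ P.support := by
    intro u v P x h
    rw [Walk.support_reverse, List.mem_reverse] at h; exact h
  have c1 : ctr ∈ P1.support := P1.end_mem_support
  have b22 : b2 ∈ P2.support := P2.end_mem_support
  have b33 : b3 ∈ P3.support := P3.end_mem_support
  have b2Q : b2 ∈ Q.support := Q.start_mem_support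
  have b3Q : b3 ∈ Q.support := Q.end_mem_support
  have cP2 : ctr ∉ P2.support := fun h => yc (d12 _ c1 h).symm
  have cP3 : ctr ∉ P3.support := fun h => yc (d13 _ c1 h).symm
  have b2P3 : b2 ∉ P3.support := fun h => y2 (d23 _ b22 h).symm
  have b3P2 : b3 ∉ P2.support := fun h => y3 (d23 _ h b33).symm
  have cQ : ctr ∉ Q.support := fun h => q1 _ h c1
  refine tok_of_six (b0 := ctr) (b1 := b2) (b2 := b3) (z := y) (Walk.cons a2 Walk.nil)
    (Walk.cons a3 Walk.nil) Q P1.reverse P2.reverse P3.reverse a2.ne a3.ne n23 yc.symm y2.symm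
    y3.symm ?_ ?_ hQ ?_ ?_ ?_ ?_ ?_ ?_ ?_ ?_ ?_ ?_ ?_ ?_ ?_ ?_ ?_ ?_ ?_ ?_
  · refine ⟨?_, by rw [wt_cons, wt_nil, add_zero, c2]⟩
    rw [Walk.cons_isPath_iff]
    exact ⟨Walk.IsPath.nil, by simpa using a2.ne⟩
  · refine ⟨?_, by rw [wt_cons, wt_nil, add_zero, c3]⟩
    rw [Walk.cons_isPath_iff]
    exact ⟨Walk.IsPath.nil, by simpa using a3.ne⟩
  · exact ⟨h1.1.reverse, (wt_reverse c P1).trans h1.2⟩
  · exact ⟨h2.1.reverse, (wt_reverse c P2).trans h2.2⟩
  · exact ⟨h3.1.reverse, (wt_reverse c P3).trans h3.2⟩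
  · intro x hx hx'
    rcases s2 x hx with rfl | rfl
    · rfl
    · rcases s3 _ hx' with h | h
      · exact h
      · exact absurd h n23
  · intro x hx hx'
    rcases s2 x hx with rfl | rfl
    · exact absurd hx' cQ
    · rfl
  · intro x hx hx'
    rcases s3 x hx with rfl | rfl
    · exact absurd hx' cQ
    · rfl
  · intro x hx hx'; exact d12 x (rev P1 x hx) (rev P2 x hx')
  · intro x hx hx'; exact d13 x (rev P1 x hx) (rev P3 x hx')
  · intro x hx hx'; exact d23 x (rev P2 x hx) (rev P3 x hx')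
  · intro x hx hx'
    rcases s2 x hx with rfl | rfl
    · rfl
    · exact absurd (rev P1 _ hx') (q1 _ b2Q)
  · intro x hx hx'
    rcases s2 x hx with rfl | rfl
    · exact absurd (rev P2 _ hx') cP2
    · rfl
  · intro x hx hx'
    rcases s2 x hx with rfl | rfl
    · exact cP3 (rev P3 _ hx')
    · exact b2P3 (rev P3 _ hx')
  · intro x hx hx'
    rcases s3 x hx with rfl | rfl
    · rfl
    · exact absurd (rev P1 _ hx') (q1 _ b3Q)
  · intro x hx hx'
    rcases s3 x hx with rfl | rfl
    · exact cP2 (rev P2 _ hx')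
    · exact b3P2 (rev P2 _ hx')
  · intro x hx hx'
    rcases s3 x hx with rfl | rfl
    · exact absurd (rev P3 _ hx') cP3
    · rfl
  · intro x hx hx'; exact q1 x hx (rev P1 x hx')
  · intro x hx hx'; exact q2 x hx (rev P2 x hx')
  · intro x hx hx'; exact q3 x hx (rev P3 x hx')

end Pool.Agent.Helper41.F2
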