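import Pool.Agent.Helper41.F2.Defs

/-!
# A counting lemma for balanced sets
-/

set_option autoImplicit false

namespace Pool.Agent.Helper41.F2

open SimpleGraph Pool.Agent.Helper57.TOK Pool.Agent.Helper57.TD Pool.Agent.Helper57.TOP
  Pool.Agent.Helper82.TK

variable {V : Type*}

lemma EAt_union_delG (G : SimpleGraph V) (A B : Set V) :
    EAt G (A ∪ B) = EAt G A ∪ EAt (delG G A) B := by
  ext e
  induction e using Sym2.ind with
  | _ u v =>
    rw [Set.mem_union, mem_EAt, mem_EAt, mem_EAt, delG_adj]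
    simp only [Set.mem_union]
    tauto

lemma disjoint_EAt_delG (G : SimpleGraph V) (A B : Set V) :
    Disjoint (EAt G A) (EAt (delG G A) B) := by
  rw [Set.disjoint_left]
  intro e
  induction e using Sym2.ind with
  | _ u v =>
    rw [mem_EAt, mem_EAt, delG_adj]
    tauto

theorem fden_union_delG [Finite V] (G : SimpleGraph V) {A B : Set V} (h : Disjoint A B) :
    fden G (A ∪ B) = fden G A + fden (delG G A) B := by
  unfold fden rho
  rw [EAt_union_delG, Set.ncard_union_eq (disjoint_EAt_delG G A B) (Set.toFinite _)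
    (Set.toFinite _), Set.ncard_union_eq h (Set.toFinite _) (Set.toFinite _)]
  push_cast
  ring

lemma neighborSet_delG {G : SimpleGraph V} {A : Set V} {u : V} (hu : u ∉ A) :
    (delG G A).neighborSet u = G.neighborSet u \ A := by
  ext x
  simp only [SimpleGraph.mem_neighborSet, delG_adj, Set.mem_sdiff]
  tauto

/-- **Counting lemma.** `W = S ∪ W1 ∪ W0`: `S` has degrees at most two, every vertex of `W \ S` of
colour `γ` has at most two neighbours outside `S`, every vertex of `W \ S` of the other colour has at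
most two neighbours outside `W`. Then `W` has at most `2 |W|` edges. -/
theorem fden_le_zero_count [Finite V] {H : SimpleGraph V} {κ : V → ZMod 2} {W S : Set V}
    {γ : ZMod 2} (hSW : S ⊆ W) (hS : ∀ s ∈ S, (H.neighborSet s).ncard ≤ 2)
    (h1 : ∀ u ∈ W, u ∉ S → κ u = γ → (H.neighborSet u \ S).ncard ≤ 2)
    (h0 : ∀ u ∈ W, u ∉ S → κ u ≠ γ → (H.neighborSet u \ W).ncard ≤ 2)
    (hb : ∀ u ∈ W, ∀ v ∈ W, H.Adj u v → κ u ≠ κ v) : fden H W ≤ 0 := by
  classical
  set W1 : Set V := {u | u ∈ W ∧ u ∉ S ∧ κ u = γ} with hW1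
  set W0 : Set V := {u | u ∈ W ∧ u ∉ S ∧ κ u ≠ γ} with hW0
  have e1 : W = S ∪ (W1 ∪ W0) := by
    ext x
    constructor
    · intro hx
      by_cases h2 : x ∈ S
      · exact Or.inl h2
      · by_cases h3 : κ x = γ
        · exact Or.inr (Or.inl ⟨hx, h2, h3⟩)
        · exact Or.inr (Or.inr ⟨hx, h2, h3⟩)
    · rintro (h2 | h2 | h2)
      · exact hSW h2
      · exact h2.1
      · exact h2.1
  have d1 : Disjoint S (W1 ∪ W0) := by
    rw [Set.disjoint_left]
    rintro x hx (h2 | h2)
    · exact h2.2.1 hx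
    · exact h2.2.1 hx
  have d2 : Disjoint W1 W0 := by
    rw [Set.disjoint_left]
    rintro x hx h2
    exact h2.2.2 hx.2.2
  have f1 : fden H S ≤ 0 := fden_le_zero_of_deg hS
  have f2 : fden (delG H S) W1 ≤ 0 := by
    apply fden_le_zero_of_deg
    rintro u ⟨h2, h3, h4⟩
    rw [neighborSet_delG h3]
    exact h1 u h2 h3 h4
  have f3 : fden (delG (delG H S) W1) W0 ≤ 0 := by
    apply fden_le_zero_of_deg
    rintro u ⟨h2, h3, h4⟩
    have h5 : u ∉ W1 := fun h6 => h4 h6.2.2
    rw [neighborSet_delG h5, neighborSet_delG h3]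
    refine (Set.ncard_le_ncard ?_ (Set.toFinite _)).trans (h0 u h2 h3 h4)
    rintro x ⟨⟨hx1, hx2⟩, hx3⟩
    refine ⟨hx1, fun hxW => hx3 ⟨hxW, hx2, ?_⟩⟩
    have key : ∀ a b g : ZMod 2, a ≠ g → a ≠ b → b = g := by decide
    exact key _ _ _ h4 (hb u h2 x hxW hx1)
  rw [e1, fden_union_delG H d1, fden_union_delG _ d2]
  linarith

end Pool.Agent.Helper41.F2
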