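import Pool.Agent.Helper82.TK.HFrame

/-!
# Degree-2 vertices: the dense case (F2c)

`h` is a vertex of degree two with neighbours `p`, `q`. `Y` is balanced in `G - h`, contains `p` and
`q` which have different colours, and has (in `G - h`) the three neighbours `n1, n2, n3`. In `G - h`
the set has at least `2 |Y| + 1` edges.
-/

set_option autoImplicit false

namespace Pool.Agent.Helper41.F2

open SimpleGraph Pool.Agent.Helper57.TOK Pool.Agent.Helper57.TD Pool.Agent.Helper57.TOP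
  Pool.Agent.Helper82.TK

variable {V : Type*}

/-- The situation F2c. -/
structure F2 (G : SimpleGraph V) (U Y : Set V) (κ : V → ZMod 2) (h p q n1 n2 n3 : V) : Prop where
  hM : GMin G U
  YU : Y ⊆ U
  hY : h ∉ Y
  adj_h : ∀ v, G.Adj h v ↔ v = p ∨ v = q
  pY : p ∈ Y
  qY : q ∈ Y
  pq : κ p ≠ κ q
  bal : ∀ u ∈ Y, ∀ v, v ≠ h → G.Adj u v → κ u ≠ κ v
  nb : ∀ u ∈ Y, ∀ v, G.Adj u v → v ∈ Y ∨ v = h ∨ v = n1 ∨ v = n2 ∨ v = n3
  n1Y : n1 ∉ Y
  n2Y : n2 ∉ Y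
  n3Y : n3 ∉ Y
  hn1 : h ≠ n1
  hn2 : h ≠ n2
  hn3 : h ≠ n3
  n12 : n1 ≠ n2
  n13 : n1 ≠ n3
  n23 : n2 ≠ n3
  a1 : ∃ y ∈ Y, G.Adj y n1
  a2 : ∃ y ∈ Y, G.Adj y n2
  a3 : ∃ y ∈ Y, G.Adj y n3
  dens : 3 ≤ fden G Y

section

variable {G : SimpleGraph V} {U Y : Set V} {κ : V → ZMod 2} {h p q n1 n2 n3 : V}

lemma F2.symm_pq (F : F2 G U Y κ h p q n1 n2 n3) : F2 G U Y κ h q p n1 n2 n3 :=
  { F with
    adj_h := fun v => (F.adj_h v).trans or_comm
    pY := F.qY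
    qY := F.pY
    pq := F.pq.symm }

lemma F2.swap12 (F : F2 G U Y κ h p q n1 n2 n3) : F2 G U Y κ h p q n2 n1 n3 :=
  { F with
    nb := fun u hu v huv => by
      rcases F.nb u hu v huv with h1 | h1 | h1 | h1 | h1
      · exact Or.inl h1
      · exact Or.inr (Or.inl h1)
      · exact Or.inr (Or.inr (Or.inr (Or.inl h1)))
      · exact Or.inr (Or.inr (Or.inl h1))
      · exact Or.inr (Or.inr (Or.inr (Or.inr h1)))
    n1Y := F.n2Y
    n2Y := F.n1Y
    hn1 := F.hn2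
    hn2 := F.hn1
    n12 := F.n12.symm
    n13 := F.n23
    n23 := F.n13
    a1 := F.a2
    a2 := F.a1 }

lemma F2.swap23 (F : F2 G U Y κ h p q n1 n2 n3) : F2 G U Y κ h p q n1 n3 n2 :=
  { F with
    nb := fun u hu v huv => by
      rcases F.nb u hu v huv with h1 | h1 | h1 | h1 | h1
      · exact Or.inl h1
      · exact Or.inr (Or.inl h1)
      · exact Or.inr (Or.inr (Or.inl h1))
      · exact Or.inr (Or.inr (Or.inr (Or.inr h1)))
      · exact Or.inr (Or.inr (Or.inr (Or.inl h1)))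
    n2Y := F.n3Y
    n3Y := F.n2Y
    hn2 := F.hn3
    hn3 := F.hn2
    n12 := F.n13
    n13 := F.n12
    n23 := F.n23.symm
    a2 := F.a3
    a3 := F.a2 }

lemma F2.swap13 (F : F2 G U Y κ h p q n1 n2 n3) : F2 G U Y κ h p q n3 n2 n1 :=
  F.swap12.swap23.swap12

end

end Pool.Agent.Helper41.F2
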