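import Pool.Agent.Helper41.F2.Count
import Pool.Agent.Helper1.GL.Basic
import Pool.Agent.Helper73.C3.Flex

/-!
# A three-fan in a balanced set with four neighbours
-/

set_option autoImplicit false

namespace Pool.Agent.Helper41.F2

open SimpleGraph Pool.Agent.Helper57.TOK Pool.Agent.Helper57.TD Pool.Agent.Helper57.TOP
  Pool.Agent.Helper82.TK Pool.Agent.Helper1.GL Pool.Agent.Helper73.C3

variable {V : Type*}

/-- The three paths of a fan to a set with three elements, named. -/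
theorem fan_named [Finite V] {H : SimpleGraph V} {w a b c : V} (hab : a ≠ b) (hac : a ≠ c)
    (hbc : b ≠ c) (hwB : w ∉ ({a, b, c} : Set V)) (hF : Fan H w {a, b, c} 3) :
    ∃ (Pa : H.Walk w a) (Pb : H.Walk w b) (Pc : H.Walk w c), Pa.IsPath ∧ Pb.IsPath ∧ Pc.IsPath ∧
      (∀ x ∈ Pa.support, x ∈ ({a, b, c} : Set V) → x = a) ∧
      (∀ x ∈ Pb.support, x ∈ ({a, b, c} : Set V) → x = b) ∧
      (∀ x ∈ Pc.support, x ∈ ({a, b, c} : Set V) → x = c) ∧
      (∀ x ∈ Pa.support, x ∈ Pb.support → x = w) ∧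
      (∀ x ∈ Pa.support, x ∈ Pc.support → x = w) ∧
      (∀ x ∈ Pb.support, x ∈ Pc.support → x = w) := by
  obtain ⟨e, P, h1, h2, h3⟩ := hF
  have hinj : Function.Injective e := Fan.injective_end hwB (fun i => (h1 i).1) h3
  have hsub : Set.range e ⊆ ({a, b, c} : Set V) := by
    rintro x ⟨i, rfl⟩
    exact (h1 i).1
  have hcard : (Set.range e).ncard = 3 := by
    rw [← Set.image_univ, Set.ncard_image_of_injective _ hinj, Set.ncard_univ]
    simp
  have h3' : ({a, b, c} : Set V).ncard = 3 := by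
    rw [Set.ncard_eq_three]
    exact ⟨a, b, c, hab, hac, hbc, rfl⟩
  have hr : Set.range e = ({a, b, c} : Set V) :=
    Set.eq_of_subset_of_ncard_le hsub (by omega) (Set.toFinite _)
  have ha : a ∈ Set.range e := by rw [hr]; simp
  have hb : b ∈ Set.range e := by rw [hr]; simp
  have hc : c ∈ Set.range e := by rw [hr]; simp
  obtain ⟨i, rfl⟩ := ha
  obtain ⟨j, rfl⟩ := hb
  obtain ⟨k, rfl⟩ := hc
  have hij : i ≠ j := fun h => hab (h ▸ rfl)
  have hik : i ≠ k := fun h => hac (h ▸ rfl)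
  have hjk : j ≠ k := fun h => hbc (h ▸ rfl)
  exact ⟨P i, P j, P k, (h1 i).2, (h1 j).2, (h1 k).2, h2 i, h2 j, h2 k, h3 i j hij, h3 i k hik,
    h3 j k hjk⟩

/-- A walk of `H ≤ G` as a walk of `G`. -/
lemma wt_sub {G H : SimpleGraph V} {κ : V → ZMod 2} (hκ : Proper H κ) (hle : H ≤ G) {a b : V}
    (p : H.Walk a b) : wt (One V) (p.mapLe hle) = κ a + κ b := by
  rw [wt_mapLe]
  exact wt_one_of_proper hκ p

/-- A set around `w` which is left only through `B` or `Nb`. -/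
lemma conn_subset {H : SimpleGraph V} {X W B : Set V} {w : V} (hw : w ∈ W)
    (hWB : ∀ x y, x ∈ W ∪ B → H.Adj x y → y ∈ W ∪ B) (hXB : Disjoint X B)
    (hX : ∀ y ∈ X, ∃ p : H.Walk w y, ∀ z ∈ p.support, z ∈ X) : X ⊆ W := by
  intro y hy
  obtain ⟨p, -⟩ := hX y hy
  have h1 : y ∈ W ∪ B := walk_closed hWB p (Or.inl hw) y p.end_mem_support
  rcases h1 with h1 | h1
  · exact h1
  · exact absurd h1 (Set.disjoint_left.1 hXB hy)

/-- **FAN4.** -/
theorem fan4 [Finite V] {G : SimpleGraph V} {U A : Set V} {κ : V → ZMod 2} {l t0 b2 b3 : V}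
    (hM : GMin G U) (hAU : A ⊆ U) (hb : PB G κ A) (hN : Nb G A = {l, t0, b2, b3})
    (nlt : l ≠ t0) (nl2 : l ≠ b2) (nl3 : l ≠ b3) (nt2 : t0 ≠ b2) (nt3 : t0 ≠ b3) (n23 : b2 ≠ b3)
    (c1 : κ t0 = κ l) (c2 : κ b2 ≠ κ l) (c3 : κ b3 ≠ κ l) (hf : 1 ≤ fden G A) :
    ∃ y ∈ A, κ y = κ l ∧ ∃ (P1 : G.Walk y t0) (P2 : G.Walk y b2) (P3 : G.Walk y b3),
      (P1.IsPath ∧ wt (One V) P1 = 0) ∧ (P2.IsPath ∧ wt (One V) P2 = 1) ∧
      (P3.IsPath ∧ wt (One V) P3 = 1) ∧
      (∀ x ∈ P1.support, x ∈ A ∨ x = t0) ∧ (∀ x ∈ P2.support, x ∈ A ∨ x = b2) ∧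
      (∀ x ∈ P3.support, x ∈ A ∨ x = b3) ∧
      (∀ x ∈ P1.support, x ∈ P2.support → x = y) ∧
      (∀ x ∈ P1.support, x ∈ P3.support → x = y) ∧
      (∀ x ∈ P2.support, x ∈ P3.support → x = y) := by
  classical
  set H : SimpleGraph V := delG (restr G A) {l} with hH
  have hHadj : ∀ {x y}, H.Adj x y ↔ G.Adj x y ∧ (x ∈ A ∨ y ∈ A) ∧ x ≠ l ∧ y ≠ l := by
    intro x y
    rw [hH, delG_adj, restr_adj, Set.mem_singleton_iff, Set.mem_singleton_iff]
    tauto
  have hlA : l ∉ A := by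
    have : l ∈ Nb G A := by rw [hN]; simp
    exact this.1
  have ht0A : t0 ∉ A := by
    have : t0 ∈ Nb G A := by rw [hN]; simp
    exact this.1
  have hb2A : b2 ∉ A := by
    have : b2 ∈ Nb G A := by rw [hN]; simp
    exact this.1
  have hb3A : b3 ∉ A := by
    have : b3 ∈ Nb G A := by rw [hN]; simp
    exact this.1
  have hHcl : ∀ x y, H.Adj x y → y ∈ A ∨ y ∈ ({t0, b2, b3} : Set V) := by
    intro x y hxy
    obtain ⟨h1, h2, -, h4⟩ := hHadj.1 hxy
    by_cases hy : y ∈ A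
    · exact Or.inl hy
    · right
      have h3 : y ∈ Nb G A := ⟨hy, x, h2.resolve_right hy, h1⟩
      rw [hN] at h3
      rcases h3 with h3 | h3 | h3 | h3
      · exact absurd h3 h4
      · rw [h3]; simp
      · rw [h3]; simp
      · rw [Set.mem_singleton_iff] at h3; rw [h3]; simp
  have hprop : Proper H κ := by
    intro u v huv
    obtain ⟨h1, h2, -, -⟩ := hHadj.1 huv
    have h3 : κ u ≠ κ v := by
      rcases h2 with h2 | h2
      · exact hb u v h2 h1
      · exact (hb v u h2 h1.symm).symm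
    exact add_eq_one_iff.2 h3
  have hle : H ≤ G := fun x y hxy => (hHadj.1 hxy).1
  by_contra hcon
  -- no fans
  have hno : ∀ y ∈ A, κ y = κ l → ¬ Fan H y {t0, b2, b3} 3 := by
    intro y hy hyl hF
    apply hcon
    have hyB : y ∉ ({t0, b2, b3} : Set V) := by
      rintro (h1 | h1 | h1)
      · exact ht0A (h1 ▸ hy)
      · exact hb2A (h1 ▸ hy)
      · rw [Set.mem_singleton_iff] at h1; exact hb3A (h1 ▸ hy)
    obtain ⟨Pa, Pb, Pc, pa, pb, pc, ea, eb, ec, dab, dac, dbc⟩ :=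
      fan_named nt2 nt3 n23 hyB hF
    have hcl : ∀ x y, x ∈ A ∪ {t0, b2, b3} → H.Adj x y → y ∈ A ∪ {t0, b2, b3} :=
      fun x y _ hxy => hHcl x y hxy
    have hsupp : ∀ {z : V} (P : H.Walk y z), (∀ x ∈ P.support, x ∈ ({t0, b2, b3} : Set V) → x = z)
        → ∀ x ∈ P.support, x ∈ A ∨ x = z := by
      intro z P he x hx
      rcases walk_closed hcl P (Or.inl hy) x hx with h1 | h1
      · exact Or.inl h1
      · exact Or.inr (he x hx h1)
    refine ⟨y, hy, hyl, Pa.mapLe hle, Pb.mapLe hle, Pc.mapLe hle, ⟨pa.mapLe hle, ?_⟩,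
      ⟨pb.mapLe hle, ?_⟩, ⟨pc.mapLe hle, ?_⟩, ?_, ?_, ?_, ?_, ?_, ?_⟩
    · rw [wt_sub hprop hle, hyl, c1, CharTwo.add_self_eq_zero]
    · rw [wt_sub hprop hle, hyl]; exact add_eq_one_iff.2 c2.symm
    · rw [wt_sub hprop hle, hyl]; exact add_eq_one_iff.2 c3.symm
    all_goals simp only [Walk.support_mapLe_eq_support]
    · exact hsupp Pa ea
    · exact hsupp Pb eb
    · exact hsupp Pc ec
    · exact dab
    · exact dac
    · exact dbc
  -- two neighbours
  have halpha : ∀ u ∈ A, 3 ≤ (G.neighborSet u).ncard → κ u = κ l →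
      (G.neighborSet u \ {s | s ∈ A ∧ (G.neighborSet s).ncard ≤ 2}).ncard ≤ 2 := by
    intro u hu hud hul
    have huB : u ∉ ({t0, b2, b3} : Set V) := by
      rintro (h1 | h1 | h1)
      · exact ht0A (h1 ▸ hu)
      · exact hb2A (h1 ▸ hu)
      · rw [Set.mem_singleton_iff] at h1; exact hb3A (h1 ▸ hu)
    rcases fan_or_set (G := H) (w := u) (B := {t0, b2, b3}) (k := 3) huB with
      h1 | ⟨X, huX, hXB, hX3, hXc⟩
    · exact absurd h1 (hno u hu hul)
    have hXA : X ⊆ A := conn_subset hu (fun x y _ hxy => hHcl x y hxy) hXB hXc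
    have hNX : Nb G X ⊆ insert l (Nb H X) := by
      rintro v ⟨hv, x, hx, hxv⟩
      by_cases hvl : v = l
      · exact Or.inl hvl
      · exact Or.inr ⟨hv, x, hx, hHadj.2 ⟨hxv, Or.inl (hXA hx), fun h => hlA (h ▸ hXA hx), hvl⟩⟩
    have hNX3 : (Nb G X).ncard ≤ 3 := by
      have h1 := Set.ncard_le_ncard hNX (Set.toFinite _)
      have h2 := Set.ncard_insert_le l (Nb H X)
      omega
    have hXb : PB G κ X := fun u' v hu' huv => hb u' v (hXA hu') huv
    have hsub : G.neighborSet u \ {s | s ∈ A ∧ (G.neighborSet s).ncard ≤ 2} ⊆ Nb H X := by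
      rintro v ⟨huv, hvS⟩
      have huv' : G.Adj u v := huv
      have hvl : v ≠ l := by
        rintro rfl
        exact hb u v hu huv' hul
      refine ⟨?_, u, huX, hHadj.2 ⟨huv', Or.inl hu, fun h => hlA (h ▸ hu), hvl⟩⟩
      intro hvX
      have hvd : 3 ≤ (G.neighborSet v).ncard := by
        by_contra hlt
        exact hvS ⟨hXA hvX, by omega⟩
      exact gmin_no_two_real hM (hXA.trans hAU) hXb hNX3 huX hvX huv'.ne hud hvd
    have := Set.ncard_le_ncard hsub (Set.toFinite _)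
    omega
  have hcount : fden G A ≤ 0 := by
    apply fden_le_zero_count (κ := κ) (S := {s | s ∈ A ∧ (G.neighborSet s).ncard ≤ 2}) (γ := κ l)
      (fun s hs => hs.1) (fun s hs => hs.2)
    · intro u hu huS hul
      refine halpha u hu ?_ hul
      by_contra hlt
      exact huS ⟨hu, by omega⟩
    · intro u hu huS hul
      have hsub : G.neighborSet u \ A ⊆ {l, t0} := by
        rintro v ⟨huv, hvA⟩
        have huv' : G.Adj u v := huv
        have h3 : v ∈ Nb G A := ⟨hvA, u, hu, huv'⟩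
        have h4 := hb u v hu huv'
        have key : ∀ a b c : ZMod 2, a ≠ c → a ≠ b → b = c := by decide
        have h5 : κ v = κ l := key _ _ _ hul h4
        rw [hN] at h3
        rcases h3 with h3 | h3 | h3 | h3
        · rw [h3]; simp
        · rw [h3]; simp
        · rw [h3] at h5; exact absurd h5 c2
        · rw [Set.mem_singleton_iff] at h3; rw [h3] at h5; exact absurd h5 c3
      have := Set.ncard_le_ncard hsub (Set.toFinite _)
      rw [Set.ncard_pair nlt] at this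
      exact this
    · intro u hu v _ huv
      exact hb u v hu huv
  omega

end Pool.Agent.Helper41.F2
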