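import Pool.Agent.Helper41.F2.Link
import Pool.Agent.Helper41.F2.Close
import Pool.Agent.Helper41.F2.Fan4

/-!
# F2c, last case: setup and the fan exit
-/

set_option autoImplicit false

namespace Pool.Agent.Helper41.F2

open SimpleGraph Pool.Agent.Helper57.TOK Pool.Agent.Helper57.TD Pool.Agent.Helper57.TOP
  Pool.Agent.Helper82.TK Pool.Agent.Helper1.GL Pool.Agent.Helper73.C3

variable {V : Type*}

/-- The last case: `q ~ n1, n2` and `p ~ n3`. -/
structure L2 (G : SimpleGraph V) (U Y : Set V) (κ : V → ZMod 2) (h p q n1 n2 n3 : V) : Prop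
    extends F2 G U Y κ h p q n1 n2 n3 where
  c1 : κ n1 = κ p
  c2 : κ n2 = κ p
  c3 : κ n3 = κ q
  qn1 : G.Adj q n1
  qn2 : G.Adj q n2
  pn3 : G.Adj p n3

/-- `Y` without `p` and `q`. -/
def CC (Y : Set V) (p q : V) : Set V := {x | x ∈ Y ∧ x ≠ p ∧ x ≠ q}

/-- The edges which meet `Y` and avoid `q` and `h`. -/
def JJ (G : SimpleGraph V) (Y : Set V) (q h : V) : SimpleGraph V where
  Adj u v := G.Adj u v ∧ (u ∈ Y ∨ v ∈ Y) ∧ u ≠ q ∧ v ≠ q ∧ u ≠ h ∧ v ≠ h
  symm := ⟨fun _ _ h => ⟨h.1.symm, h.2.1.symm, h.2.2.2.1, h.2.2.1, h.2.2.2.2.2, h.2.2.2.2.1⟩⟩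
  loopless := ⟨fun _ h => h.1.ne rfl⟩

lemma JJ_adj {G : SimpleGraph V} {Y : Set V} {q h u v : V} : (JJ G Y q h).Adj u v ↔
    G.Adj u v ∧ (u ∈ Y ∨ v ∈ Y) ∧ u ≠ q ∧ v ≠ q ∧ u ≠ h ∧ v ≠ h := Iff.rfl

lemma JJ_le (G : SimpleGraph V) (Y : Set V) (q h : V) : JJ G Y q h ≤ G := fun _ _ h => h.1

section

variable {G : SimpleGraph V} {U Y : Set V} {κ : V → ZMod 2} {h p q n1 n2 n3 : V}

lemma F2.hp (F : F2 G U Y κ h p q n1 n2 n3) : h ≠ p := fun e => F.hY (e ▸ F.pY)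

lemma F2.hq (F : F2 G U Y κ h p q n1 n2 n3) : h ≠ q := fun e => F.hY (e ▸ F.qY)

lemma F2.pq_ne (F : F2 G U Y κ h p q n1 n2 n3) : p ≠ q := fun e => F.pq (e ▸ rfl)

lemma F2.proper (F : F2 G U Y κ h p q n1 n2 n3) : Proper (JJ G Y q h) κ := by
  rintro u v ⟨h1, h2, -, -, h5, h6⟩
  have h3 : κ u ≠ κ v := by
    rcases h2 with h2 | h2
    · exact F.bal u h2 v h6 h1
    · exact (F.bal v h2 u h5 h1.symm).symm
  exact add_eq_one_iff.2 h3

/-- a vertex of `CC` is not adjacent to `h` -/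
lemma F2.cc_h (F : F2 G U Y κ h p q n1 n2 n3) {x : V} (hx : x ∈ CC Y p q) : ¬ G.Adj x h := by
  intro hxh
  rcases (F.adj_h x).1 hxh.symm with h1 | h1
  · exact hx.2.1 h1
  · exact hx.2.2 h1

lemma F2.cc_bal (F : F2 G U Y κ h p q n1 n2 n3) {X : Set V} (hX : X ⊆ CC Y p q) : PB G κ X := by
  intro u v hu huv
  exact F.bal u (hX hu).1 v (fun e => F.cc_h (hX hu) (e ▸ huv)) huv

lemma F2.cc_U (F : F2 G U Y κ h p q n1 n2 n3) {X : Set V} (hX : X ⊆ CC Y p q) : X ⊆ U :=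
  fun _ hx => F.YU (hX hx).1

/-- closedness -/
lemma F2.jj_cl (F : F2 G U Y κ h p q n1 n2 n3) {x y : V} (hxy : (JJ G Y q h).Adj x y) :
    y ∈ CC Y p q ∪ {n3} ∪ {n1, n2, p} := by
  obtain ⟨h1, h2, -, h4, -, h6⟩ := hxy
  by_cases hy : y ∈ Y
  · by_cases hp : y = p
    · right; right; right; exact hp
    · left; left; exact ⟨hy, hp, h4⟩
  · rcases F.nb x (h2.resolve_right hy) y h1 with h3 | h3 | h3 | h3 | h3
    · exact absurd h3 hy
    · exact absurd h3 h6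
    · right; left; exact h3
    · right; right; left; exact h3
    · left; right; exact h3

lemma F2.jj_B (F : F2 G U Y κ h p q n1 n2 n3) {u : V} (hu : u ∈ CC Y p q ∪ {n3}) :
    u ∉ ({n1, n2, p} : Set V) := by
  rintro (h1 | h1 | h1)
  · rcases hu with hu | hu
    · exact F.n1Y (h1 ▸ hu.1)
    · exact F.n13 (h1.symm.trans hu)
  · rcases hu with hu | hu
    · exact F.n2Y (h1 ▸ hu.1)
    · exact F.n23 (h1.symm.trans hu)
  · rw [Set.mem_singleton_iff] at h1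
    rcases hu with hu | hu
    · exact hu.2.1 h1
    · exact F.n3Y (h1.symm.trans hu ▸ F.pY)

/-- The edge path `p - h - q`. -/
lemma F2.php (F : F2 G U Y κ h p q n1 n2 n3) : ∃ R : G.Walk p q, R.IsPath ∧
    wt (One V) R = 0 ∧ ∀ x ∈ R.support, x = p ∨ x = h ∨ x = q := by
  have a1 : G.Adj p h := ((F.adj_h p).2 (Or.inl rfl)).symm
  have a2 : G.Adj h q := (F.adj_h q).2 (Or.inr rfl)
  refine ⟨Walk.cons a1 (Walk.cons a2 Walk.nil), ?_, ?_, ?_⟩
  · rw [Walk.cons_isPath_iff, Walk.cons_isPath_iff]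
    refine ⟨⟨Walk.IsPath.nil, ?_⟩, ?_⟩
    · simpa using F.hq
    · simp only [Walk.support_cons, Walk.support_nil, List.mem_cons, List.not_mem_nil, or_false,
        not_or]
      exact ⟨F.hp.symm, F.pq_ne⟩
  · rw [wt_cons, wt_cons, wt_nil]
    show (1 : ZMod 2) + (1 + 0) = 0
    decide
  · intro x hx
    simpa only [Walk.support_cons, Walk.support_nil, List.mem_cons, List.not_mem_nil,
      or_false] using hx

/-- **The fan exit.** -/
theorem L2.no_fan [Finite V] (L : L2 G U Y κ h p q n1 n2 n3) {u : V}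
    (hu : u ∈ CC Y p q ∪ {n3}) (hκ : κ u = κ q) : ¬ Fan (JJ G Y q h) u {n1, n2, p} 3 := by
  classical
  intro hF
  have F := L.toF2
  have huB := F.jj_B hu
  have n1p : n1 ≠ p := fun e => F.n1Y (e ▸ F.pY)
  have n2p : n2 ≠ p := fun e => F.n2Y (e ▸ F.pY)
  have n1q : n1 ≠ q := fun e => F.n1Y (e ▸ F.qY)
  have n2q : n2 ≠ q := fun e => F.n2Y (e ▸ F.qY)
  obtain ⟨Pa, Pb, Pc, pa, pb, pc, ea, eb, ec, dab, dac, dbc⟩ :=
    fan_named F.n12 n1p n2p huB hF
  have huq : u ≠ q := by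
    rcases hu with hu | hu
    · exact hu.2.2
    · exact fun e => F.n3Y ((hu.symm.trans e) ▸ F.qY)
  have huh : u ≠ h := by
    rcases hu with hu | hu
    · exact fun e => F.hY (e ▸ hu.1)
    · exact fun e => F.hn3 (hu.symm.trans e).symm
  have hcl : ∀ x y, x ∈ (CC Y p q ∪ {n3} ∪ {n1, n2, p}) → (JJ G Y q h).Adj x y →
      y ∈ (CC Y p q ∪ {n3} ∪ {n1, n2, p}) := fun x y _ hxy => F.jj_cl hxy
  have hsupp : ∀ {z : V} (P : (JJ G Y q h).Walk u z),
      (∀ x ∈ P.support, x ∈ ({n1, n2, p} : Set V) → x = z)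
        → ∀ x ∈ P.support, x ∈ CC Y p q ∨ x = n3 ∨ x = z := by
    intro z P he x hx
    rcases walk_closed hcl P (Or.inl hu) x hx with (h1 | h1) | h1
    · exact Or.inl h1
    · exact Or.inr (Or.inl h1)
    · exact Or.inr (Or.inr (he x hx h1))
  have hav : ∀ {z : V} (P : (JJ G Y q h).Walk u z), ∀ x ∈ P.support, x ≠ q ∧ x ≠ h := by
    intro z P x hx
    have hcl' : ∀ x y, x ∈ {x | x ≠ q ∧ x ≠ h} → (JJ G Y q h).Adj x y →
        y ∈ {x | x ≠ q ∧ x ≠ h} := fun x y _ hxy => ⟨hxy.2.2.2.1, hxy.2.2.2.2.2⟩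
    exact walk_closed hcl' P ⟨huq, huh⟩ x hx
  have sa := hsupp Pa ea
  have sb := hsupp Pb eb
  have sc := hsupp Pc ec
  have hle := JJ_le G Y q h
  obtain ⟨R, hR, hRw, hRs⟩ := F.php
  obtain ⟨Q, hQ, hQw, hQs⟩ := F.link12
  have hQw' : wt (One V) Q = 1 := by
    rw [hQw, L.c1, L.c2, CharTwo.add_self_eq_zero, zero_add]
  have hκp : κ u + κ p = 1 := by rw [hκ]; exact add_eq_one_iff.2 F.pq.symm
  set P1 : G.Walk u q := (Pc.mapLe hle).append R with hP1
  have hP1s : ∀ x ∈ P1.support, x ∈ Pc.support ∨ x = h ∨ x = q := by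
    intro x hx
    rw [hP1, Walk.mem_support_append_iff, Walk.support_mapLe_eq_support] at hx
    rcases hx with hx | hx
    · exact Or.inl hx
    · rcases hRs x hx with h1 | h1 | h1
      · rw [h1]; exact Or.inl Pc.end_mem_support
      · exact Or.inr (Or.inl h1)
      · exact Or.inr (Or.inr h1)
  refine L.hM.bad (tok_of_centre (ctr := q) (b2 := n1) (b3 := n2) (y := u) L.qn1 rfl L.qn2 rfl Q
    P1 (Pa.mapLe hle) (Pb.mapLe hle) ⟨hQ, hQw'⟩ ⟨?_, ?_⟩ ⟨pa.mapLe hle, ?_⟩ ⟨pb.mapLe hle, ?_⟩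
    F.n12 huq (fun e => huB (Or.inl e)) (fun e => huB (Or.inr (Or.inl e))) ?_ ?_ ?_ ?_ ?_ ?_)
  · refine isPath_append_of _ _ (pc.mapLe hle) hR ?_
    intro x hx hx'
    rw [Walk.support_mapLe_eq_support] at hx
    rcases hRs x hx' with h1 | h1 | h1
    · exact h1
    · exact absurd h1 (hav Pc x hx).2
    · exact absurd h1 (hav Pc x hx).1
  · rw [wt_append, hRw, add_zero, wt_sub F.proper hle]; exact hκp
  · rw [wt_sub F.proper hle, L.c1]; exact hκp
  · rw [wt_sub F.proper hle, L.c2]; exact hκp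
  · intro x hx hx'
    rw [Walk.support_mapLe_eq_support] at hx'
    rcases hP1s x hx with h1 | h1 | h1
    · exact dac x hx' h1
    · exact absurd h1 (hav Pa x hx').2
    · exact absurd h1 (hav Pa x hx').1
  · intro x hx hx'
    rw [Walk.support_mapLe_eq_support] at hx'
    rcases hP1s x hx with h1 | h1 | h1
    · exact dbc x hx' h1
    · exact absurd h1 (hav Pb x hx').2
    · exact absurd h1 (hav Pb x hx').1
  · intro x hx hx'
    rw [Walk.support_mapLe_eq_support] at hx hx'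
    exact dab x hx hx'
  · intro x hx hx'
    rcases hQs x hx with h2 | h2 | h2
    · subst h2
      rcases hP1s _ hx' with h1 | h1 | h1
      · exact n1p (ec _ h1 (Or.inl rfl))
      · exact F.hn1 h1.symm
      · exact n1q h1
    · subst h2
      rcases hP1s _ hx' with h1 | h1 | h1
      · exact n2p (ec _ h1 (Or.inr (Or.inl rfl)))
      · exact F.hn2 h1.symm
      · exact n2q h1
    · rcases hP1s x hx' with h1 | h1 | h1
      · rcases sc x h1 with h3 | h3 | h3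
        · exact h2.2.1 h3.1
        · exact h2.2.2.2.2.2 h3
        · exact h2.2.1 (h3 ▸ F.pY)
      · exact h2.2.2.1 h1
      · exact h2.2.1 (h1 ▸ F.qY)
  · intro x hx hx'
    rw [Walk.support_mapLe_eq_support] at hx'
    rcases hQs x hx with h2 | h2 | h2
    · exact h2
    · subst h2
      exact absurd (ea _ hx' (Or.inr (Or.inl rfl))) F.n12.symm
    · rcases sa x hx' with h3 | h3 | h3
      · exact absurd h3.1 h2.2.1
      · exact absurd h3 h2.2.2.2.2.2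
      · exact h3
  · intro x hx hx'
    rw [Walk.support_mapLe_eq_support] at hx'
    rcases hQs x hx with h2 | h2 | h2
    · subst h2
      exact absurd (eb _ hx' (Or.inl rfl)) F.n12
    · exact h2
    · rcases sb x hx' with h3 | h3 | h3
      · exact absurd h3.1 h2.2.1
      · exact absurd h3 h2.2.2.2.2.2
      · exact h3

/-- The set around a vertex without a fan. -/
theorem L2.fan_set [Finite V] (L : L2 G U Y κ h p q n1 n2 n3) {u : V}
    (hu : u ∈ CC Y p q ∪ {n3}) (hκ : κ u = κ q) : ∃ X : Set V, u ∈ X ∧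
      X ⊆ CC Y p q ∪ {n3} ∧ (Nb (JJ G Y q h) X).ncard ≤ 2 := by
  rcases fan_or_set (G := JJ G Y q h) (w := u) (B := {n1, n2, p}) (k := 3)
    (L.toF2.jj_B hu) with h1 | ⟨X, huX, hXB, hX3, hXc⟩
  · exact absurd h1 (L.no_fan hu hκ)
  · refine ⟨X, huX, conn_subset hu (fun x y _ hxy => L.toF2.jj_cl hxy) hXB hXc, by omega⟩

end

end Pool.Agent.Helper41.F2
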