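import Pool.Agent.Helper41.F2.Last1

/-!
# F2c, last case: the tight set `X0`
-/

set_option autoImplicit false

namespace Pool.Agent.Helper41.F2

open SimpleGraph Pool.Agent.Helper57.TOK Pool.Agent.Helper57.TD Pool.Agent.Helper57.TOP
  Pool.Agent.Helper82.TK Pool.Agent.Helper1.GL Pool.Agent.Helper73.C3

variable {V : Type*}

/-- The family: sets with `n3` and at most two neighbours in `JJ`. -/
structure Fam (G : SimpleGraph V) (Y : Set V) (h p q n3 : V) (X : Set V) : Prop where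
  n3X : n3 ∈ X
  sub : X ⊆ CC Y p q ∪ {n3}
  two : (Nb (JJ G Y q h) X).ncard ≤ 2

section

variable {G : SimpleGraph V} {U Y : Set V} {κ : V → ZMod 2} {h p q n1 n2 n3 : V}

/-- neighbours in `G` of a set inside `CC` -/
lemma F2.cc_adj (F : F2 G U Y κ h p q n1 n2 n3) {x v : V} (hx : x ∈ CC Y p q) (hxv : G.Adj x v)
    (hv : v ≠ q) : (JJ G Y q h).Adj x v :=
  ⟨hxv, Or.inl hx.1, hx.2.2, hv, fun e => F.hY (e ▸ hx.1), fun e => F.cc_h hx (e ▸ hxv)⟩

lemma F2.cc_Nb (F : F2 G U Y κ h p q n1 n2 n3) {X : Set V} (hX : X ⊆ CC Y p q) :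
    Nb G X ⊆ insert q (Nb (JJ G Y q h) X) := by
  rintro v ⟨hv, x, hx, hxv⟩
  by_cases hvq : v = q
  · exact Or.inl hvq
  · exact Or.inr ⟨hv, x, hx, F.cc_adj (hX hx) hxv hvq⟩

lemma F2.cc_Nb3 [Finite V] (F : F2 G U Y κ h p q n1 n2 n3) {X : Set V} (hX : X ⊆ CC Y p q)
    (h2 : (Nb (JJ G Y q h) X).ncard ≤ 2) : (Nb G X).ncard ≤ 3 := by
  have h3 := Set.ncard_le_ncard (F.cc_Nb hX) (Set.toFinite _)
  have h4 := Set.ncard_insert_le q (Nb (JJ G Y q h) X)
  omega

/-- Sets with at most two neighbours in `G` are not dense. -/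
lemma F2.small2 [Finite V] (F : F2 G U Y κ h p q n1 n2 n3) {D : Set V} (hD : D ⊆ CC Y p q)
    (h2 : (Nb G D).ncard ≤ 2) : fden G D ≤ 0 := by
  have h1 : D.ncard ≤ 1 := by
    by_contra hlt
    push Not at hlt
    have := gmin_three_le F.hM (F.cc_U hD) (F.cc_bal hD) hlt
    omega
  apply fden_le_zero_of_deg
  intro x hx
  have hDx : D = {x} := by
    apply Set.eq_of_subset_of_ncard_le
    · intro y hy
      rw [Set.mem_singleton_iff]
      by_contra hne
      have h3 : ({y, x} : Set V) ⊆ D := by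
        rintro z (rfl | hz)
        · exact hy
        · rw [Set.mem_singleton_iff] at hz; rw [hz]; exact hx
      have h4 := Set.ncard_le_ncard h3 (Set.toFinite _)
      rw [Set.ncard_pair hne] at h4
      omega
    · rw [Set.ncard_singleton]
      exact (Set.ncard_pos (Set.toFinite _)).2 ⟨x, hx⟩
    · exact Set.toFinite _
  have h5 : G.neighborSet x ⊆ Nb G D := by
    intro y hy
    refine ⟨?_, x, hx, hy⟩
    rw [hDx, Set.mem_singleton_iff]
    exact (SimpleGraph.Adj.ne hy).symm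
  exact (Set.ncard_le_ncard h5 (Set.toFinite _)).trans h2

/-- A three-element set with `p` and with `q` or `n3` is mixed. -/
lemma L2.not_mono (L : L2 G U Y κ h p q n1 n2 n3) {N : Set V} {a b : V} (ha : a ∈ N) (hb : b ∈ N)
    (hab : κ a ≠ κ b) : beta κ N = (N.ncard : ℤ) - 3 :=
  beta_of_not_mono (fun hm => hab (hm a ha b hb))

lemma ncard_insert3 {a b c : V} : ({a, b, c} : Set V).ncard ≤ 3 := by
  have h1 := Set.ncard_insert_le a {b, c}
  have h2 := Set.ncard_insert_le b {c}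
  rw [Set.ncard_singleton] at h2
  omega

lemma ncard_insert4 {a b c d : V} : ({a, b, c, d} : Set V).ncard ≤ 4 := by
  have h1 := Set.ncard_insert_le a {b, c, d}
  have h2 := ncard_insert3 (a := b) (b := c) (c := d)
  omega

/-- Sets with neighbours `p, q, n3` only. -/
lemma L2.small3 [Finite V] (L : L2 G U Y κ h p q n1 n2 n3) {D : Set V} (hD : D ⊆ CC Y p q)
    (hN : Nb G D ⊆ {p, q, n3}) : fden G D ≤ 0 := by
  by_cases h2 : (Nb G D).ncard ≤ 2
  · exact L.toF2.small2 hD h2
  · have h3 : (Nb G D).ncard ≤ 3 :=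
      (Set.ncard_le_ncard hN (Set.toFinite _)).trans ncard_insert3
    have hEq : Nb G D = {p, q, n3} := by
      apply Set.eq_of_subset_of_ncard_le hN _ (Set.toFinite _)
      have := ncard_insert3 (a := p) (b := q) (c := n3)
      omega
    have h4 := gmin_P1 L.hM (L.toF2.cc_U hD) (L.toF2.cc_bal hD) (by omega)
    rw [L.not_mono (a := p) (b := q) (by rw [hEq]; simp) (by rw [hEq]; simp) L.pq] at h4
    omega

/-- The maximal member of the family. -/
theorem L2.exists_max [Finite V] (L : L2 G U Y κ h p q n1 n2 n3) : ∃ X : Set V,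
    Fam G Y h p q n3 X ∧ ∀ X', Fam G Y h p q n3 X' → X'.ncard ≤ X.ncard := by
  obtain ⟨X, h1, h2, h3⟩ := L.fan_set (u := n3) (Or.inr rfl) L.c3
  obtain ⟨M, hM, hmax⟩ := Set.exists_max_image {X | Fam G Y h p q n3 X} Set.ncard
    (Set.toFinite _) ⟨X, h1, h2, h3⟩
  exact ⟨M, hM, hmax⟩

/-- A maximal member. -/
structure L2M (G : SimpleGraph V) (U Y : Set V) (κ : V → ZMod 2) (h p q n1 n2 n3 : V)
    (X : Set V) : Prop extends L2 G U Y κ h p q n1 n2 n3 where
  fam : Fam G Y h p q n3 X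
  max : ∀ X', Fam G Y h p q n3 X' → X'.ncard ≤ X.ncard

variable {X : Set V}

lemma L2M.no_bigger [Finite V] (M : L2M G U Y κ h p q n1 n2 n3 X) {X' : Set V} {u : V}
    (hsub : X ⊆ X') (hX' : X' ⊆ CC Y p q ∪ {n3}) (hu : u ∈ X') (huX : u ∉ X) :
    3 ≤ (Nb (JJ G Y q h) X').ncard := by
  by_contra hlt
  push Not at hlt
  have h1 := M.max X' ⟨hsub M.fam.n3X, hX', by omega⟩
  have h2 : X ⊂ X' := ⟨hsub, fun h => huX (h hu)⟩
  have h3 := Set.ncard_lt_ncard h2 (Set.toFinite _)
  omega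

lemma L2M.pX (M : L2M G U Y κ h p q n1 n2 n3 X) : p ∉ X := fun hp =>
  M.toF2.jj_B (M.fam.sub hp) (Or.inr (Or.inr rfl))

lemma L2M.pN (M : L2M G U Y κ h p q n1 n2 n3 X) : p ∈ Nb (JJ G Y q h) X :=
  ⟨M.pX, n3, M.fam.n3X, M.pn3.symm, Or.inr M.pY, fun e => M.n3Y (e ▸ M.qY), M.toF2.pq_ne,
    M.hn3.symm, M.toF2.hp.symm⟩

/-- `X0` -/
def X0 (X : Set V) (n3 : V) : Set V := {x | x ∈ X ∧ x ≠ n3}

lemma L2M.x0_cc (M : L2M G U Y κ h p q n1 n2 n3 X) : X0 X n3 ⊆ CC Y p q := by
  rintro x ⟨hx, hx3⟩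
  rcases M.fam.sub hx with h1 | h1
  · exact h1
  · exact absurd h1 hx3

lemma L2M.x0_Nb (M : L2M G U Y κ h p q n1 n2 n3 X) {v : V} (hv : v ∈ Nb G (X0 X n3)) :
    v = q ∨ v = n3 ∨ v ∈ Nb (JJ G Y q h) X := by
  obtain ⟨hv1, x, hx, hxv⟩ := hv
  by_cases hvq : v = q
  · exact Or.inl hvq
  by_cases hv3 : v = n3
  · exact Or.inr (Or.inl hv3)
  · exact Or.inr (Or.inr ⟨fun hvX => hv1 ⟨hvX, hv3⟩, x, hx.1,
      M.toF2.cc_adj (M.x0_cc hx) hxv hvq⟩)

/-- **Claim A.** -/
theorem L2M.claimA [Finite V] (M : L2M G U Y κ h p q n1 n2 n3 X) {u : V}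
    (hu : u ∈ CC Y p q) (huX : u ∉ X) (hκ : κ u = κ q) : ∃ X1 : Set V, u ∈ X1 ∧
      X1 ⊆ CC Y p q ∧ (Nb (JJ G Y q h) X1).ncard ≤ 2 := by
  obtain ⟨X1, h1, h2, h3⟩ := M.fan_set (Or.inl hu) hκ
  by_cases hn : n3 ∈ X1
  · have h4 : 3 ≤ (Nb (JJ G Y q h) (X ∪ X1)).ncard :=
      M.no_bigger Set.subset_union_left (Set.union_subset M.fam.sub h2) (Or.inr h1) huX
    have h5 := ncard_Nb_submodular (JJ G Y q h) X X1
    have h6 := M.fam.two
    have hpX1 : p ∉ X1 := fun hp => M.toF2.jj_B (h2 hp) (Or.inr (Or.inr rfl))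
    have hpI : p ∈ Nb (JJ G Y q h) (X ∩ X1) :=
      ⟨fun hp => hpX1 hp.2, n3, ⟨M.fam.n3X, hn⟩, M.pn3.symm, Or.inr M.pY,
        fun e => M.n3Y (e ▸ M.qY), M.toF2.pq_ne, M.hn3.symm, M.toF2.hp.symm⟩
    have huniq : ∀ y ∈ Nb (JJ G Y q h) (X ∩ X1), y = p := by
      intro y hy
      by_contra hne
      have h7 : ({y, p} : Set V) ⊆ Nb (JJ G Y q h) (X ∩ X1) := by
        rintro z (rfl | hz)
        · exact hy
        · rw [Set.mem_singleton_iff] at hz; rw [hz]; exact hpI
      have h8 := Set.ncard_le_ncard h7 (Set.toFinite _)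
      rw [Set.ncard_pair hne] at h8
      omega
    refine ⟨X1 \ X, ⟨h1, huX⟩, ?_, ?_⟩
    · rintro x ⟨hx, hxX⟩
      rcases h2 hx with h7 | h7
      · exact h7
      · exact absurd (h7 ▸ M.fam.n3X) hxX
    · refine (Set.ncard_le_ncard ?_ (Set.toFinite _)).trans h3
      rintro v ⟨hv, y, ⟨hy1, hyX⟩, hyv⟩
      refine ⟨fun hv1 => ?_, y, hy1, hyv⟩
      by_cases hvX : v ∈ X
      · have : y = p := huniq y ⟨fun hy => hyX hy.1, v, ⟨hvX, hv1⟩, hyv.symm⟩
        exact hpX1 (this ▸ hy1)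
      · exact hv ⟨hv1, hvX⟩
  · refine ⟨X1, h1, ?_, h3⟩
    intro x hx
    rcases h2 hx with h7 | h7
    · exact h7
    · exact absurd (h7 ▸ hx) hn

/-- **The count.** -/
theorem L2M.count [Finite V] (M : L2M G U Y κ h p q n1 n2 n3 X) :
    fden G (CC Y p q) ≤ fden G (X0 X n3) := by
  classical
  have F := M.toF2
  set W : Set V := CC Y p q \ X0 X n3 with hW
  have hCW : CC Y p q = X0 X n3 ∪ W := by
    rw [hW, Set.union_sdiff_cancel M.x0_cc]
  have hd : Disjoint (X0 X n3) W := Set.disjoint_sdiff_right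
  have hWX : ∀ u ∈ W, u ∉ X := by
    rintro u ⟨hu, hu0⟩ huX
    exact hu0 ⟨huX, fun e => F.n3Y (e ▸ hu.1)⟩
  have key : fden (delG G (X0 X n3)) W ≤ 0 := by
    apply fden_le_zero_count (κ := κ) (S := {s | s ∈ W ∧ (G.neighborSet s).ncard ≤ 2})
      (γ := κ q) (fun s hs => hs.1)
    · rintro s ⟨hs, hs2⟩
      rw [neighborSet_delG hs.2]
      exact (Set.ncard_le_ncard Set.sdiff_subset (Set.toFinite _)).trans hs2
    · intro u hu huS hκ
      have hud : 3 ≤ (G.neighborSet u).ncard := by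
        by_contra hlt
        exact huS ⟨hu, by omega⟩
      obtain ⟨X1, h1, h2, h3⟩ := M.claimA hu.1 (hWX u hu) hκ
      rw [neighborSet_delG hu.2]
      refine (Set.ncard_le_ncard ?_ (Set.toFinite _)).trans h3
      rintro v ⟨⟨huv, hv0⟩, hvS⟩
      have huv' : G.Adj u v := huv
      have hvq : v ≠ q := by
        rintro rfl
        exact F.bal u hu.1.1 _ F.hq.symm huv' hκ
      have hJ := F.cc_adj hu.1 huv' hvq
      refine ⟨?_, u, h1, hJ⟩
      intro hv1
      have hvd : 3 ≤ (G.neighborSet v).ncard := by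
        by_contra hlt
        exact hvS ⟨⟨h2 hv1, hv0⟩, by omega⟩
      exact gmin_no_two_real M.hM (F.cc_U h2) (F.cc_bal h2) (F.cc_Nb3 h2 h3) h1 hv1 huv'.ne hud
        hvd
    · intro u hu huS hκ
      rw [neighborSet_delG hu.2]
      have hsub : (G.neighborSet u \ X0 X n3) \ W ⊆ {q, n3} := by
        rintro v ⟨⟨huv, hv0⟩, hvW⟩
        have huv' : G.Adj u v := huv
        have hvC : v ∉ CC Y p q := fun hvC => hvW ⟨hvC, hv0⟩
        have hvh : v ≠ h := fun e => F.cc_h hu.1 (e ▸ huv')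
        have h4 := F.bal u hu.1.1 v hvh huv'
        have kk : ∀ a b c : ZMod 2, a ≠ c → a ≠ b → b = c := by decide
        have h5 : κ v = κ q := kk _ _ _ hκ h4
        rcases F.nb u hu.1.1 v huv' with h6 | h6 | h6 | h6 | h6
        · by_cases hvp : v = p
          · rw [hvp] at h5; exact absurd h5 F.pq
          · by_cases hvq : v = q
            · exact Or.inl hvq
            · exact absurd ⟨h6, hvp, hvq⟩ hvC
        · exact absurd h6 hvh
        · rw [h6, M.c1] at h5; exact absurd h5 F.pq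
        · rw [h6, M.c2] at h5; exact absurd h5 F.pq
        · exact Or.inr h6
      have h7 := Set.ncard_le_ncard hsub (Set.toFinite _)
      have h8 : ({q, n3} : Set V).ncard ≤ 2 := by
        have := Set.ncard_insert_le q {n3}
        rw [Set.ncard_singleton] at this
        omega
      omega
    · intro u hu v _ huv
      exact F.bal u hu.1.1 v (fun e => F.cc_h hu.1 (e ▸ huv.1)) huv.1
  rw [hCW, fden_union_delG G hd]
  linarith

open Classical in
/-- The number of edges at `p` and `q`. -/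
theorem L2.fden_C [Finite V] (L : L2 G U Y κ h p q n1 n2 n3) :
    fden G Y ≤ fden G (CC Y p q) + 1 + (if G.Adj p q then 1 else 0) := by
  have F := L.toF2
  have hY : Y = insert p (insert q (CC Y p q)) := by
    ext x
    constructor
    · intro hx
      by_cases h1 : x = p
      · exact Or.inl h1
      · by_cases h2 : x = q
        · exact Or.inr (Or.inl h2)
        · exact Or.inr (Or.inr ⟨hx, h1, h2⟩)
    · rintro (h1 | h1 | h1)
      · rw [h1]; exact F.pY
      · rw [h1]; exact F.qY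
      · exact h1.1
  have hq : q ∉ CC Y p q := fun hh => hh.2.2 rfl
  have hp : p ∉ insert q (CC Y p q) := by
    rintro (hh | hh)
    · exact F.pq_ne hh
    · exact hh.2.1 rfl
  have e1 : fden G Y = fden G (CC Y p q) + ((G.neighborSet q \ CC Y p q).ncard : ℤ) - 2 +
      ((G.neighborSet p \ insert q (CC Y p q)).ncard : ℤ) - 2 := by
    conv_lhs => rw [hY]
    rw [fden_insert G hp, fden_insert G hq]
  have kk : ∀ a b c : ZMod 2, a ≠ c → a ≠ b → b = c := by decide
  have h1 : (G.neighborSet p \ insert q (CC Y p q)).ncard ≤ 2 := by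
    have hsub : G.neighborSet p \ insert q (CC Y p q) ⊆ {h, n3} := by
      rintro v ⟨hpv, hv⟩
      have hpv' : G.Adj p v := hpv
      by_cases hvh : v = h
      · exact Or.inl hvh
      have h4 := F.bal p F.pY v hvh hpv'
      rcases F.nb p F.pY v hpv' with h6 | h6 | h6 | h6 | h6
      · exfalso
        by_cases hvq : v = q
        · exact hv (Or.inl hvq)
        · exact hv (Or.inr ⟨h6, hpv'.ne', hvq⟩)
      · exact Or.inl h6
      · rw [h6, L.c1] at h4; exact absurd rfl h4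
      · rw [h6, L.c2] at h4; exact absurd rfl h4
      · exact Or.inr h6
    have h7 := Set.ncard_le_ncard hsub (Set.toFinite _)
    have h8 : ({h, n3} : Set V).ncard ≤ 2 := by
      have := Set.ncard_insert_le h {n3}
      rw [Set.ncard_singleton] at this
      omega
    omega
  have hq1 : ∀ v, G.Adj q v → v ∉ CC Y p q → v = p ∨ v = h ∨ v = n1 ∨ v = n2 := by
    intro v hqv hv
    by_cases hvh : v = h
    · exact Or.inr (Or.inl hvh)
    have h4 := F.bal q F.qY v hvh hqv
    rcases F.nb q F.qY v hqv with h6 | h6 | h6 | h6 | h6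
    · by_cases hvp : v = p
      · exact Or.inl hvp
      · exact absurd ⟨h6, hvp, hqv.ne'⟩ hv
    · exact Or.inr (Or.inl h6)
    · exact Or.inr (Or.inr (Or.inl h6))
    · exact Or.inr (Or.inr (Or.inr h6))
    · rw [h6, L.c3] at h4; exact absurd rfl h4
  by_cases hpq : G.Adj p q
  · rw [if_pos hpq]
    have h2 : (G.neighborSet q \ CC Y p q).ncard ≤ 4 := by
      have hsub : G.neighborSet q \ CC Y p q ⊆ {p, h, n1, n2} := by
        rintro v ⟨hqv, hv⟩
        exact hq1 v hqv hv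
      exact (Set.ncard_le_ncard hsub (Set.toFinite _)).trans ncard_insert4
    rw [e1]
    omega
  · rw [if_neg hpq]
    have h2 : (G.neighborSet q \ CC Y p q).ncard ≤ 3 := by
      have hsub : G.neighborSet q \ CC Y p q ⊆ {h, n1, n2} := by
        rintro v ⟨hqv, hv⟩
        rcases hq1 v hqv hv with h3 | h3
        · exact absurd (h3 ▸ hqv : G.Adj q p).symm hpq
        · exact h3
      exact (Set.ncard_le_ncard hsub (Set.toFinite _)).trans ncard_insert3
    rw [e1]
    omega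

/-- The neighbourhood of `X0` has at most four elements. -/
theorem L2M.exists_z [Finite V] (M : L2M G U Y κ h p q n1 n2 n3 X) :
    Nb (JJ G Y q h) X = {p} ∨ ∃ z, z ≠ p ∧ Nb (JJ G Y q h) X = {p, z} := by
  classical
  have h1 := M.fam.two
  by_cases hex : ∃ z ∈ Nb (JJ G Y q h) X, z ≠ p
  · obtain ⟨z, hz, hzp⟩ := hex
    right
    refine ⟨z, hzp, ?_⟩
    symm
    apply Set.eq_of_subset_of_ncard_le
    · rintro x (rfl | hx)
      · exact M.pN
      · rw [Set.mem_singleton_iff] at hx; rw [hx]; exact hz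
    · rw [Set.ncard_pair hzp.symm]; exact h1
    · exact Set.toFinite _
  · push Not at hex
    left
    ext x
    rw [Set.mem_singleton_iff]
    exact ⟨fun hx => hex x hx, fun hx => hx ▸ M.pN⟩

/-- `X0` is not very dense. -/
theorem L2M.f_le_one [Finite V] (M : L2M G U Y κ h p q n1 n2 n3 X) :
    fden G (X0 X n3) ≤ 1 := by
  by_cases h2 : (Nb G (X0 X n3)).ncard ≤ 2
  · have := M.toF2.small2 M.x0_cc h2
    omega
  push Not at h2
  rcases M.exists_z with hz | ⟨z, hzp, hz⟩
  · have := M.toL2.small3 M.x0_cc (by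
      intro v hv
      rcases M.x0_Nb hv with h3 | h3 | h3
      · rw [h3]; simp
      · rw [h3]; simp
      · rw [hz, Set.mem_singleton_iff] at h3; rw [h3]; simp)
    omega
  · have hsub : Nb G (X0 X n3) ⊆ {p, z, q, n3} := by
      intro v hv
      rcases M.x0_Nb hv with h3 | h3 | h3
      · rw [h3]; simp
      · rw [h3]; simp
      · rw [hz] at h3
        rcases h3 with h3 | h3
        · rw [h3]; simp
        · rw [Set.mem_singleton_iff] at h3; rw [h3]; simp
    have h4 : (Nb G (X0 X n3)).ncard ≤ 4 :=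
      (Set.ncard_le_ncard hsub (Set.toFinite _)).trans ncard_insert4
    have h5 := gmin_P12 M.hM (M.toF2.cc_U M.x0_cc) (M.toF2.cc_bal M.x0_cc) (by omega) h4
    by_cases h6 : (Nb G (X0 X n3)).ncard = 4
    · have hEq : Nb G (X0 X n3) = {p, z, q, n3} := by
        apply Set.eq_of_subset_of_ncard_le hsub _ (Set.toFinite _)
        rw [h6]; exact ncard_insert4
      rw [M.toL2.not_mono (a := p) (b := q) (by rw [hEq]; simp) (by rw [hEq]; simp) M.pq] at h5
      omega
    · have h7 : beta κ (Nb G (X0 X n3)) ≤ (Nb G (X0 X n3)).ncard - 2 := by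
        by_cases hm : Mono κ (Nb G (X0 X n3))
        · rw [beta_of_mono hm]
        · rw [beta_of_not_mono hm]; omega
      omega

end

end Pool.Agent.Helper41.F2
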