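import Pool.Agent.Helper41.F2.Last2

/-!
# F2c, last case: the fourth neighbour `z` of the tight set
-/

set_option autoImplicit false

namespace Pool.Agent.Helper41.F2

open SimpleGraph Pool.Agent.Helper57.TOK Pool.Agent.Helper57.TD Pool.Agent.Helper57.TOP
  Pool.Agent.Helper82.TK Pool.Agent.Helper1.GL Pool.Agent.Helper73.C3

variable {V : Type*} {G : SimpleGraph V} {U Y : Set V} {κ : V → ZMod 2} {h p q n1 n2 n3 : V}
  {X : Set V}

theorem L2M.tight [Finite V] (M : L2M G U Y κ h p q n1 n2 n3 X) :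
    fden G (X0 X n3) = 1 ∧ G.Adj p q := by
  classical
  have h1 := M.count
  have h2 := M.toL2.fden_C
  have h3 := M.f_le_one
  have h4 := M.dens
  by_cases hpq : G.Adj p q
  · rw [if_pos hpq] at h2
    exact ⟨by omega, hpq⟩
  · rw [if_neg hpq] at h2
    omega

/-- `X0` has exactly four neighbours, if they are not of the form `{z, q, n3}`. -/
lemma L2M.four [Finite V] (M : L2M G U Y κ h p q n1 n2 n3 X) {z : V}
    (hz : Nb (JJ G Y q h) X = {p, z}) (hκz : κ z = κ p) :
    Nb G (X0 X n3) = {p, z, q, n3} ∧ (Nb G (X0 X n3)).ncard = 4 := by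
  have hf := M.tight.1
  have hsub : Nb G (X0 X n3) ⊆ {p, z, q, n3} := by
    intro v hv
    rcases M.x0_Nb hv with h3 | h3 | h3
    · rw [h3]; simp
    · rw [h3]; simp
    · rw [hz] at h3
      rcases h3 with h3 | h3
      · rw [h3]; simp
      · rw [Set.mem_singleton_iff] at h3; rw [h3]; simp
  have h4 : (Nb G (X0 X n3)).ncard ≤ 4 :=
    (Set.ncard_le_ncard hsub (Set.toFinite _)).trans ncard_insert4
  have h2 : 3 ≤ (Nb G (X0 X n3)).ncard := by
    by_contra hlt
    have := M.toF2.small2 M.x0_cc (by omega)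
    omega
  have h3 : (Nb G (X0 X n3)).ncard ≠ 3 := by
    intro h3
    have h5 := gmin_P1 M.hM (M.toF2.cc_U M.x0_cc) (M.toF2.cc_bal M.x0_cc) h3
    have hnm : ¬ Mono κ (Nb G (X0 X n3)) := by
      intro hm
      -- two of the three have different colours
      by_cases h6 : p ∈ Nb G (X0 X n3) ∨ z ∈ Nb G (X0 X n3)
      · by_cases h7 : q ∈ Nb G (X0 X n3) ∨ n3 ∈ Nb G (X0 X n3)
        · rcases h6 with h6 | h6 <;> rcases h7 with h7 | h7
          · exact M.pq (hm _ h6 _ h7)
          · exact M.pq ((hm _ h6 _ h7).trans M.c3)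
          · exact M.pq (hκz.symm.trans (hm _ h6 _ h7))
          · exact M.pq (hκz.symm.trans ((hm _ h6 _ h7).trans M.c3))
        · have h8 : Nb G (X0 X n3) ⊆ {p, z} := by
            intro v hv
            rcases hsub hv with h9 | h9 | h9 | h9
            · rw [h9]; simp
            · rw [h9]; simp
            · exact absurd (Or.inl (h9 ▸ hv)) h7
            · rw [Set.mem_singleton_iff] at h9; exact absurd (Or.inr (h9 ▸ hv)) h7
          have h9 := Set.ncard_le_ncard h8 (Set.toFinite _)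
          have h10 := Set.ncard_insert_le p {z}
          rw [Set.ncard_singleton] at h10
          omega
      · have h8 : Nb G (X0 X n3) ⊆ {q, n3} := by
          intro v hv
          rcases hsub hv with h9 | h9 | h9 | h9
          · exact absurd (Or.inl (h9 ▸ hv)) h6
          · exact absurd (Or.inr (h9 ▸ hv)) h6
          · rw [h9]; simp
          · rw [Set.mem_singleton_iff] at h9; rw [h9]; simp
        have h9 := Set.ncard_le_ncard h8 (Set.toFinite _)
        have h10 := Set.ncard_insert_le q {n3}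
        rw [Set.ncard_singleton] at h10
        omega
    rw [beta_of_not_mono hnm] at h5
    omega
  refine ⟨?_, by omega⟩
  apply Set.eq_of_subset_of_ncard_le hsub _ (Set.toFinite _)
  have := ncard_insert4 (a := p) (b := z) (c := q) (d := n3)
  omega

/-- The fourth neighbour. -/
theorem L2M.z_good [Finite V] (M : L2M G U Y κ h p q n1 n2 n3 X) :
    ∃ z, z ≠ p ∧ Nb (JJ G Y q h) X = {p, z} ∧ κ z = κ p ∧
      (z = n1 ∨ z = n2 ∨ (z ∈ CC Y p q ∧ 3 ≤ (G.neighborSet z).ncard)) := by
  classical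
  have F := M.toF2
  obtain ⟨hf, hpq⟩ := M.tight
  rcases M.exists_z with hz | ⟨z, hzp, hz⟩
  · exfalso
    have := M.toL2.small3 M.x0_cc (by
      intro v hv
      rcases M.x0_Nb hv with h3 | h3 | h3
      · rw [h3]; simp
      · rw [h3]; simp
      · rw [hz, Set.mem_singleton_iff] at h3; rw [h3]; simp)
    omega
  refine ⟨z, hzp, hz, ?_⟩
  have hzN : z ∈ Nb (JJ G Y q h) X := by rw [hz]; simp
  obtain ⟨hzX, x, hxX, hxz⟩ := hzN
  have hz3 : z ≠ n3 := fun e => hzX (e ▸ M.fam.n3X)
  by_cases hz1 : z = n1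
  · exact ⟨hz1 ▸ M.c1, Or.inl hz1⟩
  by_cases hz2 : z = n2
  · exact ⟨hz2 ▸ M.c2, Or.inr (Or.inl hz2)⟩
  have hzC : z ∈ CC Y p q := by
    rcases F.jj_cl hxz with (h1 | h1) | h1 | h1 | h1
    · exact h1
    · exact absurd h1 hz3
    · exact absurd h1 hz1
    · exact absurd h1 hz2
    · exact absurd h1 hzp
  have hzq : z ≠ q := hzC.2.2
  -- `z` is real
  have hzd : 3 ≤ (G.neighborSet z).ncard := by
    by_contra hlt
    push Not at hlt
    have h1 := M.no_bigger (X' := insert z X) (u := z) (Set.subset_insert _ _) (by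
      rintro y (rfl | hy)
      · exact Or.inl hzC
      · exact M.fam.sub hy) (Or.inl rfl) hzX
    have h2 : Nb (JJ G Y q h) (insert z X) ⊆ insert p (G.neighborSet z \ {x}) := by
      rintro v ⟨hv, y, hy, hyv⟩
      rcases hy with rfl | hy
      · right
        refine ⟨hyv.1, ?_⟩
        rintro rfl
        exact hv (Or.inr hxX)
      · have h3 : v ∈ Nb (JJ G Y q h) X := ⟨fun hh => hv (Or.inr hh), y, hy, hyv⟩
        rw [hz] at h3
        rcases h3 with h3 | h3
        · exact Or.inl h3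
        · exact absurd (Or.inl h3) hv
    have h3 := Set.ncard_le_ncard h2 (Set.toFinite _)
    have h4 := Set.ncard_insert_le p (G.neighborSet z \ {x})
    have h5 : (G.neighborSet z \ {x}).ncard + 1 = (G.neighborSet z).ncard :=
      Set.ncard_sdiff_singleton_add_one hxz.1.symm (Set.toFinite _)
    omega
  by_cases hκ : κ z = κ q
  · exfalso
    obtain ⟨X1, hzX1, hX1, hX12⟩ := M.claimA hzC hzX hκ
    have h1 := M.no_bigger (X' := X ∪ X1) (u := z) Set.subset_union_left
      (Set.union_subset M.fam.sub (fun y hy => Or.inl (hX1 hy))) (Or.inr hzX1) hzX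
    have h2 : Nb (JJ G Y q h) (X ∪ X1) ⊆ insert p (Nb (JJ G Y q h) X1 \ X) := by
      rintro v ⟨hv, y, hy, hyv⟩
      rcases hy with hy | hy
      · have h3 : v ∈ Nb (JJ G Y q h) X := ⟨fun hh => hv (Or.inl hh), y, hy, hyv⟩
        rw [hz] at h3
        rcases h3 with h3 | h3
        · exact Or.inl h3
        · rw [Set.mem_singleton_iff] at h3
          exact absurd (Or.inr (h3 ▸ hzX1)) hv
      · exact Or.inr ⟨⟨fun hh => hv (Or.inr hh), y, hy, hyv⟩, fun hh => hv (Or.inl hh)⟩
    have h3 := Set.ncard_le_ncard h2 (Set.toFinite _)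
    have h4 := Set.ncard_insert_le p (Nb (JJ G Y q h) X1 \ X)
    have h5 : Nb (JJ G Y q h) X1 \ X = Nb (JJ G Y q h) X1 := by
      apply Set.eq_of_subset_of_ncard_le Set.sdiff_subset _ (Set.toFinite _)
      omega
    have hno : ∀ y ∈ X, y ∉ X1 → ∀ v ∈ X1, ¬ (JJ G Y q h).Adj y v := by
      intro y hy hy1 v hv hyv
      have h6 : y ∈ Nb (JJ G Y q h) X1 := ⟨hy1, v, hv, hyv.symm⟩
      rw [← h5] at h6
      exact h6.2 hy
    -- the remaining part
    set D : Set V := X0 X n3 \ X1 with hD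
    have hDC : D ⊆ CC Y p q := fun y hy => M.x0_cc hy.1
    have hDN : Nb G D ⊆ {p, q, n3} := by
      rintro v ⟨hv, y, ⟨hy0, hy1⟩, hyv⟩
      by_cases hvq : v = q
      · rw [hvq]; simp
      by_cases hv3 : v = n3
      · rw [hv3]; simp
      have hJ := F.cc_adj (M.x0_cc hy0) hyv hvq
      by_cases hvX : v ∈ X
      · exfalso
        by_cases hv1 : v ∈ X1
        · exact hno y hy0.1 hy1 v hv1 hJ
        · exact hv ⟨⟨hvX, hv3⟩, hv1⟩
      · have h6 : v ∈ Nb (JJ G Y q h) X := ⟨hvX, y, hy0.1, hJ⟩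
        rw [hz] at h6
        rcases h6 with h6 | h6
        · rw [h6]; simp
        · rw [Set.mem_singleton_iff] at h6
          exact absurd (h6 ▸ hJ) (hno y hy0.1 hy1 z hzX1)
    have hfD : fden G D ≤ 0 := M.toL2.small3 hDC hDN
    have hE : fden (delG G D) (X0 X n3 ∩ X1) ≤ 0 := by
      apply fden_le_zero_of_deg
      rintro s ⟨hs0, hs1⟩
      have hsz : s ≠ z := fun e => hzX (e ▸ hs0.1)
      have hsd : (G.neighborSet s).ncard ≤ 2 := by
        by_contra hlt
        push Not at hlt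
        exact gmin_no_two_real M.hM (F.cc_U hX1) (F.cc_bal hX1) (F.cc_Nb3 hX1 hX12) hs1 hzX1 hsz
          (by omega) hzd
      have hsub : (delG G D).neighborSet s ⊆ G.neighborSet s := fun y hy => hy.1
      exact (Set.ncard_le_ncard hsub (Set.toFinite _)).trans hsd
    have hsplit : X0 X n3 = D ∪ (X0 X n3 ∩ X1) := by
      rw [hD, Set.sdiff_union_inter]
    have hdis : Disjoint D (X0 X n3 ∩ X1) := by
      rw [Set.disjoint_left]
      rintro y ⟨-, hy⟩ ⟨-, hy'⟩
      exact hy hy'
    have h6 : fden G (X0 X n3) = fden G D + fden (delG G D) (X0 X n3 ∩ X1) := by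
      conv_lhs => rw [hsplit]
      exact fden_union_delG G hdis
    omega
  · have kk : ∀ a b c : ZMod 2, a ≠ c → b ≠ c → a = b := by decide
    exact ⟨kk _ _ _ hκ M.pq, Or.inr (Or.inr ⟨hzC, hzd⟩)⟩

/-- The inconsistent path from `z` to `n3`. -/
theorem L2M.zpath [Finite V] (M : L2M G U Y κ h p q n1 n2 n3 X) {z : V} (hzp : z ≠ p)
    (hz : Nb (JJ G Y q h) X = {p, z}) (hκz : κ z = κ p)
    (hzc : z = n1 ∨ z = n2 ∨ (z ∈ CC Y p q ∧ 3 ≤ (G.neighborSet z).ncard)) :
    ∃ Q : G.Walk z n3, Q.IsPath ∧ wt (One V) Q = κ z + κ n3 + 1 ∧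
      ∀ x ∈ Q.support, x ∉ X0 X n3 ∧ x ≠ p ∧ x ≠ q ∧ x ≠ h := by
  classical
  have F := M.toF2
  have hRR : ∀ {a b c : V} {x : V}, x ∈ RR U Y h a b c →
      x ∉ X0 X n3 ∧ x ≠ p ∧ x ≠ q ∧ x ≠ h := by
    intro a b c x hx
    exact ⟨fun h0 => hx.2.1 (M.x0_cc h0).1, fun e => hx.2.1 (e ▸ M.pY),
      fun e => hx.2.1 (e ▸ M.qY), hx.2.2.1⟩
  have hn : ∀ {a : V}, a ∉ Y → a ≠ h → a ∉ X0 X n3 ∧ a ≠ p ∧ a ≠ q ∧ a ≠ h := by
    intro a ha hah
    exact ⟨fun h0 => ha (M.x0_cc h0).1, fun e => ha (e ▸ M.pY), fun e => ha (e ▸ M.qY), hah⟩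
  -- the links
  obtain ⟨Q1, hQ1, hQ1w, hQ1s⟩ := F.swap23.link12
  obtain ⟨Q2, hQ2, hQ2w, hQ2s⟩ := F.swap12.swap23.link12
  rcases hzc with rfl | rfl | ⟨hzC, hzd⟩
  · refine ⟨Q1, hQ1, hQ1w, ?_⟩
    intro x hx
    rcases hQ1s x hx with h1 | h1 | h1
    · rw [h1]; exact hn M.n1Y M.hn1.symm
    · rw [h1]; exact hn M.n3Y M.hn3.symm
    · exact hRR h1
  · refine ⟨Q2, hQ2, hQ2w, ?_⟩
    intro x hx
    rcases hQ2s x hx with h1 | h1 | h1
    · rw [h1]; exact hn M.n2Y M.hn2.symm
    · rw [h1]; exact hn M.n3Y M.hn3.symm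
    · exact hRR h1
  · -- a path inside
    have hzX : z ∉ X := by
      have : z ∈ Nb (JJ G Y q h) X := by rw [hz]; simp
      exact this.1
    set K : SimpleGraph V := delG (JJ G Y q h) (X0 X n3 ∪ {p, n3}) with hK
    have hKle : K ≤ G := fun x y hxy => hxy.1.1
    have hKcl : ∀ x y, x ∈ {x | (x ∈ CC Y p q ∧ x ∉ X0 X n3) ∨ x = n1 ∨ x = n2} → K.Adj x y →
        y ∈ {x | (x ∈ CC Y p q ∧ x ∉ X0 X n3) ∨ x = n1 ∨ x = n2} := by
      intro x y _ hxy
      obtain ⟨h1, -, h3⟩ := hxy
      rcases F.jj_cl h1 with (h4 | h4) | h4 | h4 | h4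
      · exact Or.inl ⟨h4, fun h5 => h3 (Or.inl h5)⟩
      · exact absurd (Or.inr (Or.inr h4)) h3
      · exact Or.inr (Or.inl h4)
      · exact Or.inr (Or.inr h4)
      · exact absurd (Or.inr (Or.inl h4)) h3
    have hz0 : z ∉ X0 X n3 := fun h0 => hzX h0.1
    have hreach : K.Reachable z n1 ∨ K.Reachable z n2 := by
      by_contra hcon
      push Not at hcon
      set D : Set V := {y | K.Reachable z y} with hD
      have hDs : D ⊆ {x | (x ∈ CC Y p q ∧ x ∉ X0 X n3) ∨ x = n1 ∨ x = n2} := by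
        rintro y ⟨w⟩
        exact walk_closed hKcl w (Or.inl ⟨hzC, hz0⟩) y w.end_mem_support
      have hDC : D ⊆ CC Y p q := by
        intro y hy
        rcases hDs hy with h1 | h1 | h1
        · exact h1.1
        · exact absurd (h1 ▸ hy) hcon.1
        · exact absurd (h1 ▸ hy) hcon.2
      have hzD : z ∈ D := SimpleGraph.Reachable.refl z
      have hN : Nb G (X0 X n3 ∪ D) ⊆ {p, q, n3} := by
        rintro v ⟨hv, y, hy, hyv⟩
        rcases hy with hy | hy
        · have h1 : v ∈ Nb G (X0 X n3) := ⟨fun hh => hv (Or.inl hh), y, hy, hyv⟩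
          rcases M.x0_Nb h1 with h3 | h3 | h3
          · rw [h3]; simp
          · rw [h3]; simp
          · rw [hz] at h3
            rcases h3 with h3 | h3
            · rw [h3]; simp
            · rw [Set.mem_singleton_iff] at h3
              exact absurd (Or.inr (h3 ▸ hzD)) hv
        · by_cases hvq : v = q
          · rw [hvq]; simp
          by_cases hvp : v = p
          · rw [hvp]; simp
          by_cases hv3 : v = n3
          · rw [hv3]; simp
          exfalso
          have hJ := F.cc_adj (hDC hy) hyv hvq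
          have hy0 : y ∉ X0 X n3 ∪ {p, n3} := by
            rintro (h1 | h1 | h1)
            · rcases hDs hy with h2 | h2 | h2
              · exact h2.2 h1
              · exact F.n1Y (h2 ▸ (hDC hy).1)
              · exact F.n2Y (h2 ▸ (hDC hy).1)
            · exact (hDC hy).2.1 h1
            · exact F.n3Y (h1 ▸ (hDC hy).1)
          have hv0 : v ∉ X0 X n3 ∪ {p, n3} := by
            rintro (h1 | h1 | h1)
            · exact hv (Or.inl h1)
            · exact hvp h1
            · exact hv3 h1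
          have hKyv : K.Adj y v := ⟨hJ, hy0, hv0⟩
          exact hv (Or.inr (SimpleGraph.Reachable.trans hy hKyv.reachable))
      have hE : X0 X n3 ∪ D ⊆ CC Y p q := Set.union_subset M.x0_cc hDC
      have hE3 : (Nb G (X0 X n3 ∪ D)).ncard ≤ 3 :=
        (Set.ncard_le_ncard hN (Set.toFinite _)).trans ncard_insert3
      obtain ⟨r, hr, hrd⟩ : ∃ r ∈ X0 X n3, 3 ≤ (G.neighborSet r).ncard := by
        by_contra hno
        push Not at hno
        have := fden_le_zero_of_deg (G := G) (Z := X0 X n3) (fun a ha => by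
          have := hno a ha
          omega)
        have := M.tight.1
        omega
      exact gmin_no_two_real M.hM (F.cc_U hE) (F.cc_bal hE) hE3 (Or.inl hr) (Or.inr hzD)
        (fun e => hz0 (e ▸ hr)) hrd hzd
    -- assemble
    have hassemble : ∀ {n m : V} (Q : G.Walk n n3), (n = n1 ∨ n = n2) → κ n = κ p → n ∉ Y →
        K.Reachable z n → Q.IsPath → wt (One V) Q = κ n + κ n3 + 1 →
        (∀ x ∈ Q.support, x = n ∨ x = n3 ∨ x ∈ RR U Y h n n3 m) → (m = n1 ∨ m = n2) →
        m ≠ n → n ≠ h →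
        ∃ Q : G.Walk z n3, Q.IsPath ∧ wt (One V) Q = κ z + κ n3 + 1 ∧
          ∀ x ∈ Q.support, x ∉ X0 X n3 ∧ x ≠ p ∧ x ≠ q ∧ x ≠ h := by
      intro n m Q hn12 hκn hnY hreach hQ hQw hQs hm hmn hnh
      obtain ⟨W0⟩ := hreach
      have hW := W0.bypass_isPath
      set W := W0.bypass with hWdef
      have hWs : ∀ x ∈ W.support, (x ∈ CC Y p q ∧ x ∉ X0 X n3) ∨ x = n1 ∨ x = n2 :=
        fun x hx => walk_closed hKcl W (Or.inl ⟨hzC, hz0⟩) x hx
      refine ⟨(W.mapLe hKle).append Q, ?_, ?_, ?_⟩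
      · refine isPath_append_of _ _ (hW.mapLe hKle) hQ ?_
        intro x hx hx'
        rw [Walk.support_mapLe_eq_support] at hx
        rcases hQs x hx' with h1 | h1 | h1
        · exact h1
        · exfalso
          rcases hWs x hx with h2 | h2 | h2
          · exact F.n3Y (h1 ▸ h2.1.1)
          · exact F.n13 (h2.symm.trans h1)
          · exact F.n23 (h2.symm.trans h1)
        · exfalso
          rcases hWs x hx with h2 | h2 | h2
          · exact h1.2.1 h2.1.1
          · rcases hn12 with h3 | h3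
            · exact h1.2.2.2.1 (h2.trans h3.symm)
            · rcases hm with h4 | h4
              · exact h1.2.2.2.2.2 (h2.trans h4.symm)
              · exact hmn (h4.trans h3.symm)
          · rcases hn12 with h3 | h3
            · rcases hm with h4 | h4
              · exact hmn (h4.trans h3.symm)
              · exact h1.2.2.2.2.2 (h2.trans h4.symm)
            · exact h1.2.2.2.1 (h2.trans h3.symm)
      · have hprop : Proper K κ := fun u v huv => F.proper u v huv.1
        rw [wt_append, wt_sub hprop hKle, hQw, hκz, hκn]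
        generalize κ p = a
        generalize κ n3 = b
        revert a b
        decide
      · intro x hx
        rw [Walk.mem_support_append_iff, Walk.support_mapLe_eq_support] at hx
        rcases hx with hx | hx
        · rcases hWs x hx with h2 | h2 | h2
          · exact ⟨h2.2, h2.1.2.1, h2.1.2.2, fun e => F.hY (e ▸ h2.1.1)⟩
          · rw [h2]; exact hn M.n1Y M.hn1.symm
          · rw [h2]; exact hn M.n2Y M.hn2.symm
        · rcases hQs x hx with h1 | h1 | h1
          · rw [h1]; exact hn hnY hnh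
          · rw [h1]; exact hn M.n3Y M.hn3.symm
          · exact hRR h1
    rcases hreach with hr | hr
    · exact hassemble (m := n2) Q1 (Or.inl rfl) M.c1 M.n1Y hr hQ1 hQ1w hQ1s (Or.inr rfl)
        F.n12.symm F.hn1.symm
    · exact hassemble (m := n1) Q2 (Or.inr rfl) M.c2 M.n2Y hr hQ2 hQ2w hQ2s (Or.inl rfl)
        F.n12 F.hn2.symm

end Pool.Agent.Helper41.F2
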