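import Pool.Agent.Helper41.F2.Last3
import Pool.Agent.Helper97.PH.P2p

/-!
# F2c, last case: the dense society and the end
-/

set_option autoImplicit false

namespace Pool.Agent.Helper41.F2

open SimpleGraph Pool.Agent.Helper57.TOK Pool.Agent.Helper57.TD Pool.Agent.Helper57.TOP
  Pool.Agent.Helper82.TK Pool.Agent.Helper1.GL Pool.Agent.Helper73.C3

variable {V : Type*} {G : SimpleGraph V} {U Y : Set V} {κ : V → ZMod 2} {h p q n1 n2 n3 : V}
  {X : Set V}

/-- The edges which meet `X0` and three edges at `p`. -/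
def ZZ (G : SimpleGraph V) (X0 : Set V) (p : V) (T : Set V) : SimpleGraph V where
  Adj u v := G.Adj u v ∧ (u ∈ X0 ∨ v ∈ X0 ∨ (u = p ∧ v ∈ T) ∨ (v = p ∧ u ∈ T))
  symm := ⟨fun u v h => ⟨h.1.symm, by
    rcases h.2 with h1 | h1 | h1 | h1
    · exact Or.inr (Or.inl h1)
    · exact Or.inl h1
    · exact Or.inr (Or.inr (Or.inr h1))
    · exact Or.inr (Or.inr (Or.inl h1))⟩⟩
  loopless := ⟨fun _ h => h.1.ne rfl⟩

lemma ZZ_adj {G : SimpleGraph V} {X0 : Set V} {p : V} {T : Set V} {u v : V} :
    (ZZ G X0 p T).Adj u v ↔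
      G.Adj u v ∧ (u ∈ X0 ∨ v ∈ X0 ∨ (u = p ∧ v ∈ T) ∨ (v = p ∧ u ∈ T)) := Iff.rfl

lemma ZZ_le (G : SimpleGraph V) (X0 : Set V) (p : V) (T : Set V) : ZZ G X0 p T ≤ G :=
  fun _ _ h => h.1

lemma EAt_ZZ {G : SimpleGraph V} {X0 : Set V} {p : V} {T Y' : Set V} (hY : Y' ⊆ X0) :
    EAt (ZZ G X0 p T) Y' = EAt G Y' := by
  ext e
  induction e using Sym2.ind with
  | _ u v =>
    rw [mem_EAt, mem_EAt, ZZ_adj]
    constructor
    · rintro ⟨h1, h2⟩
      exact ⟨h1.1, h2⟩
    · rintro ⟨h1, h2⟩
      refine ⟨⟨h1, ?_⟩, h2⟩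
      rcases h2 with h2 | h2
      · exact Or.inl (hY h2)
      · exact Or.inr (Or.inl (hY h2))

lemma fden_ZZ {G : SimpleGraph V} {X0 : Set V} {p : V} {T Y' : Set V} (hY : Y' ⊆ X0) :
    fden (ZZ G X0 p T) Y' = fden G Y' := by
  unfold fden rho
  rw [EAt_ZZ hY]

lemma Nb_ZZ {G : SimpleGraph V} {X0 : Set V} {p : V} {T Y' : Set V} (hY : Y' ⊆ X0) :
    Nb (ZZ G X0 p T) Y' = Nb G Y' := by
  ext v
  constructor
  · rintro ⟨h1, u, hu, h2⟩
    exact ⟨h1, u, hu, h2.1⟩
  · rintro ⟨h1, u, hu, h2⟩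
    exact ⟨h1, u, hu, h2, Or.inl (hY hu)⟩

open Classical in
/-- **The last case is impossible.** -/
theorem L2M.contra [Finite V] (M : L2M G U Y κ h p q n1 n2 n3 X) : False := by
  have F := M.toF2
  obtain ⟨hf, hpq⟩ := M.tight
  obtain ⟨z, hzp, hz, hκz, hzc⟩ := M.z_good
  obtain ⟨hN0, hN04⟩ := M.four hz hκz
  obtain ⟨Q, hQ, hQw, hQs⟩ := M.zpath hzp hz hκz hzc
  have hzN : z ∈ Nb (JJ G Y q h) X := by rw [hz]; simp
  have hz3 : z ≠ n3 := fun e => hzN.1 (e ▸ M.fam.n3X)
  have hzq : z ≠ q := by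
    obtain ⟨-, x, -, hxz⟩ := hzN
    exact hxz.2.2.2.1
  have hzh : z ≠ h := by
    obtain ⟨-, x, -, hxz⟩ := hzN
    exact hxz.2.2.2.2.2
  have n3q : n3 ≠ q := fun e => M.n3Y (e ▸ M.qY)
  have n3p : n3 ≠ p := fun e => M.n3Y (e ▸ M.pY)
  set XX : Set V := X0 X n3 with hXX
  have hXC : XX ⊆ CC Y p q := M.x0_cc
  have hpX0 : p ∉ XX := fun hp => (hXC hp).2.1 rfl
  have hqX0 : q ∉ XX := fun hq => (hXC hq).2.2 rfl
  have hhX0 : h ∉ XX := fun hh => F.hY (hXC hh).1
  have hn3X0 : n3 ∉ XX := fun hh => hh.2 rfl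
  have hzX0 : z ∉ XX := fun hh => hzN.1 hh.1
  have aph : G.Adj p h := ((F.adj_h p).2 (Or.inl rfl)).symm
  have aqh : G.Adj q h := ((F.adj_h q).2 (Or.inr rfl)).symm
  set κh : V → ZMod 2 := fun x => if x = h then κ p + 1 else κ x with hκh
  have kh : κh h = κ q := by
    rw [hκh]
    simp only [if_true]
    have kk : ∀ a b : ZMod 2, a ≠ b → a + 1 = b := by decide
    exact kk _ _ F.pq
  have kn : ∀ x, x ≠ h → κh x = κ x := by
    intro x hx
    rw [hκh]; simp only [if_neg hx]
  set Tp : Set V := {n3, q, h} with hTp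
  set Z : SimpleGraph V := ZZ G XX p Tp with hZ
  have hZle : Z ≤ G := ZZ_le G XX p Tp
  have hZn3 : Z.Adj p n3 := ⟨M.pn3, Or.inr (Or.inr (Or.inl ⟨rfl, by simp [hTp]⟩))⟩
  have hZq : Z.Adj p q := ⟨hpq, Or.inr (Or.inr (Or.inl ⟨rfl, by simp [hTp]⟩))⟩
  have hZh : Z.Adj p h := ⟨aph, Or.inr (Or.inr (Or.inl ⟨rfl, by simp [hTp]⟩))⟩
  have hprop : Proper Z κh := by
    have key : ∀ u v, u ∈ XX → G.Adj u v → κh u ≠ κh v := by
      intro u v hu huv
      have hvh : v ≠ h := fun e => F.cc_h (hXC hu) (e ▸ huv)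
      have huh : u ≠ h := fun e => hhX0 (e ▸ hu)
      rw [kn u huh, kn v hvh]
      exact F.bal u (hXC hu).1 v hvh huv
    have keyp : ∀ v, v ∈ Tp → κh p ≠ κh v := by
      rintro v (hv | hv | hv)
      · rw [hv, kn p F.hp.symm, kn n3 M.hn3.symm, M.c3]; exact F.pq
      · rw [hv, kn p F.hp.symm, kn q F.hq.symm]; exact F.pq
      · rw [Set.mem_singleton_iff] at hv
        rw [hv, kn p F.hp.symm, kh]; exact F.pq
    rintro u v ⟨h1, h2⟩
    apply add_eq_one_iff.2
    rcases h2 with h2 | h2 | ⟨rfl, h2⟩ | ⟨rfl, h2⟩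
    · exact key u v h2 h1
    · exact (key v u h2 h1.symm).symm
    · exact keyp v h2
    · exact (keyp u h2).symm
  have hfO : ∀ Y', fO Z κh Y' = fden Z Y' := fun Y' => Pool.Agent.Helper1.TD.fO_of_proper hprop Y'
  -- neighbours of `p` in `Z`
  have hZp : ∀ v, Z.Adj p v → v ∈ XX ∨ v ∈ Tp := by
    rintro v ⟨-, h2 | h2 | h2 | h2⟩
    · exact absurd h2 hpX0
    · exact Or.inl h2
    · exact Or.inr h2.2
    · exfalso
      rcases h2.2 with h3 | h3 | h3
      · exact n3p h3.symm
      · exact F.pq_ne h3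
      · exact F.hp h3.symm
  have hTp3 : Tp.ncard = 3 := by
    rw [Set.ncard_eq_three]
    exact ⟨n3, q, h, n3q, M.hn3.symm, F.hq.symm, rfl⟩
  have hTpS : ∀ v ∈ Tp, v ∉ XX ∧ v ≠ p := by
    rintro v (hv | hv | hv)
    · rw [hv]; exact ⟨hn3X0, n3p⟩
    · rw [hv]; exact ⟨hqX0, F.pq_ne.symm⟩
    · rw [Set.mem_singleton_iff] at hv
      rw [hv]; exact ⟨hhX0, F.hp⟩
  have hTpN : ∀ Y' ⊆ insert p XX, p ∈ Y' → Tp ⊆ Nb Z Y' := by
    intro Y' hY' hp v hv
    have h1 := hTpS v hv
    refine ⟨fun hvY => ?_, p, hp, ?_⟩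
    · rcases hY' hvY with h2 | h2
      · exact h1.2 h2
      · exact h1.1 h2
    · rcases hv with hv | hv | hv
      · rw [hv]; exact hZn3
      · rw [hv]; exact hZq
      · rw [Set.mem_singleton_iff] at hv; rw [hv]; exact hZh
  set T : Set V := {z, n3, q, h} with hT
  have hT4 : T.ncard = 4 := by
    have h1 : z ∉ Tp := by
      rintro (h1 | h1 | h1)
      · exact hz3 h1
      · exact hzq h1
      · exact hzh h1
    have h2 := Set.ncard_insert_of_notMem h1 (Set.toFinite _)
    rw [hTp3] at h2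
    exact h2
  have hsoc : Soc false Z κh (insert p XX) T := by
    refine ⟨hT4, ?_, ?_, ?_, ?_, ?_, ?_, ?_, ?_⟩
    · -- disjoint
      rw [Set.disjoint_left]
      rintro x (rfl | hx) hxT
      · rcases hxT with h1 | h1 | h1 | h1
        · exact hzp h1.symm
        · exact n3p h1.symm
        · exact F.pq_ne h1
        · exact F.hp h1.symm
      · rcases hxT with h1 | h1 | h1 | h1
        · exact hzX0 (h1 ▸ hx)
        · exact hn3X0 (h1 ▸ hx)
        · exact hqX0 (h1 ▸ hx)
        · exact hhX0 (h1 ▸ hx)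
    · -- edge_mem
      rintro u v ⟨h1, h2⟩
      by_cases hu : u ∈ XX
      · exact Or.inl (Or.inr hu)
      rcases h2 with h2 | h2 | h2 | h2
      · exact absurd h2 hu
      · have h3 : u ∈ Nb G XX := ⟨hu, v, h2, h1.symm⟩
        rw [hN0] at h3
        rcases h3 with h3 | h3 | h3 | h3
        · exact Or.inl (Or.inl h3)
        · exact Or.inr (Or.inl h3)
        · exact Or.inr (Or.inr (Or.inr (Or.inl h3)))
        · exact Or.inr (Or.inr (Or.inl h3))
      · exact Or.inl (Or.inl h2.1)
      · exact Or.inr (Or.inr h2.2)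
    · -- edge_S
      rintro u v ⟨h1, h2⟩
      rcases h2 with h2 | h2 | h2 | h2
      · exact Or.inl (Or.inr h2)
      · exact Or.inr (Or.inr h2)
      · exact Or.inl (Or.inl h2.1)
      · exact Or.inr (Or.inl h2.1)
    · -- M1
      show beta κh T + 1 ≤ fO Z κh (insert p XX)
      have hnm : ¬ Mono κh T := by
        intro hm
        have h1 := hm z (Or.inl rfl) q (Or.inr (Or.inr (Or.inl rfl)))
        rw [kn z hzh, kn q F.hq.symm, hκz] at h1
        exact F.pq h1
      rw [beta_of_not_mono hnm, hT4, hfO, fden_insert Z hpX0, fden_ZZ subset_rfl, hf]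
      have h1 : Tp ⊆ Z.neighborSet p \ XX := by
        intro v hv
        refine ⟨?_, (hTpS v hv).1⟩
        rcases hv with hv | hv | hv
        · rw [hv]; exact hZn3
        · rw [hv]; exact hZq
        · rw [Set.mem_singleton_iff] at hv; rw [hv]; exact hZh
      have h2 := Set.ncard_le_ncard h1 (Set.toFinite _)
      rw [hTp3] at h2
      push_cast
      omega
    · -- TT
      intro hh; exact absurd hh (by decide)
    · -- M2
      intro Y' hY' hne h3
      rw [hfO]
      by_cases hpY' : p ∈ Y'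
      · have hTN := hTpN Y' hY' hpY'
        have hEq : Nb Z Y' = Tp := by
          symm
          exact Set.eq_of_subset_of_ncard_le hTN (by omega) (Set.toFinite _)
        have hmono : Mono κh Tp := by
          have h4 : ∀ v ∈ Tp, κh v = κ q := by
            rintro v (hv | hv | hv)
            · rw [hv, kn n3 M.hn3.symm]; exact M.c3
            · rw [hv, kn q F.hq.symm]
            · rw [Set.mem_singleton_iff] at hv; rw [hv]; exact kh
          intro x hx y hy
          rw [h4 x hx, h4 y hy]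
        rw [hEq, beta_of_mono hmono, hTp3]
        set A : Set V := Y' \ {p} with hA
        have hAX : A ⊆ XX := by
          rintro x ⟨hx, hxp⟩
          exact (hY' hx).resolve_left hxp
        have hpA : p ∉ A := fun hh => hh.2 rfl
        have hY'A : Y' = insert p A := by
          rw [hA, Set.insert_sdiff_singleton, Set.insert_eq_of_mem hpY']
        have hNA : Nb G A ⊆ {p, q, n3} := by
          rintro v ⟨hv, y, hy, hyv⟩
          by_cases hvp : v = p
          · rw [hvp]; simp
          have h4 : v ∈ Nb Z Y' :=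
            ⟨fun hh => hv ⟨hh, hvp⟩, y, hy.1, hyv, Or.inl (hAX hy)⟩
          rw [hEq] at h4
          rcases h4 with h4 | h4 | h4
          · rw [h4]; simp
          · rw [h4]; simp
          · rw [Set.mem_singleton_iff] at h4
            exact absurd (h4 ▸ hyv) (F.cc_h (hXC (hAX hy)))
        have h5 := M.toL2.small3 (hAX.trans hXC) hNA
        have h6 : Z.neighborSet p \ A ⊆ Tp := by
          rintro v ⟨hv, hvA⟩
          have hv' : Z.Adj p v := hv
          rw [← hEq]
          refine ⟨?_, p, hpY', hv'⟩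
          intro hvY
          exact hvA ⟨hvY, hv'.ne'⟩
        have h7 := Set.ncard_le_ncard h6 (Set.toFinite _)
        have h8 : fden Z Y' = fden Z A + ((Z.neighborSet p \ A).ncard : ℤ) - 2 := by
          conv_lhs => rw [hY'A]
          exact fden_insert Z hpA
        rw [h8, fden_ZZ hAX]
        rw [hTp3] at h7
        push_cast
        omega
      · have hYX : Y' ⊆ XX := fun x hx => (hY' hx).resolve_left (fun e => hpY' (e ▸ hx))
        rw [fden_ZZ hYX, Nb_ZZ hYX] at *
        have hβ : beta κh (Nb G Y') = beta κ (Nb G Y') := by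
          have h4 : ∀ v ∈ Nb G Y', κh v = κ v := by
            rintro v ⟨-, y, hy, hyv⟩
            exact kn v (fun e => F.cc_h (hXC (hYX hy)) (e ▸ hyv))
          by_cases hm : Mono κ (Nb G Y')
          · have hm' : Mono κh (Nb G Y') := by
              intro x hx y hy
              rw [h4 x hx, h4 y hy]; exact hm x hx y hy
            rw [beta_of_mono hm, beta_of_mono hm']
          · have hm' : ¬ Mono κh (Nb G Y') := by
              intro hm'
              apply hm
              intro x hx y hy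
              rw [← h4 x hx, ← h4 y hy]; exact hm' x hx y hy
            rw [beta_of_not_mono hm, beta_of_not_mono hm']
        rw [hβ]
        by_cases h5 : (Nb G Y').ncard = 3
        · exact gmin_P1 M.hM (F.cc_U (hYX.trans hXC)) (F.cc_bal (hYX.trans hXC)) h5
        · have h6 : Y'.ncard ≤ 1 := by
            by_contra hlt
            push Not at hlt
            have := gmin_three_le F.hM (F.cc_U (hYX.trans hXC)) (F.cc_bal (hYX.trans hXC)) hlt
            omega
          have hpos : 0 < Y'.ncard := (Set.ncard_pos (Set.toFinite _)).2 hne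
          obtain ⟨s, rfl⟩ := Set.ncard_eq_one.1 (by omega : Y'.ncard = 1)
          have hsX : s ∈ XX := hYX rfl
          have h7 := M.hM.ex.deg2 s (F.YU (hXC hsX).1)
          have h8 : (G.neighborSet s).Nonempty :=
            (Set.ncard_pos (Set.toFinite _)).1 (by omega)
          have h9 := fO_singleton_le G κ s h8
          have h10 : fO G κ {s} = fden G {s} :=
            fO_of_bal (balOn_one.2 (F.cc_bal (hYX.trans hXC)))
          rw [h10] at h9
          exact h9
    · -- C1
      rintro s (rfl | hs)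
      · have h1 : ({n3, q} : Set V) ⊆ Z.neighborSet s := by
          rintro v (hv | hv)
          · rw [hv]; exact hZn3
          · rw [Set.mem_singleton_iff] at hv; rw [hv]; exact hZq
        have h2 := Set.ncard_le_ncard h1 (Set.toFinite _)
        rw [Set.ncard_pair n3q] at h2
        exact h2
      · have h1 : Z.neighborSet s = G.neighborSet s := by
          ext v
          exact ⟨fun hv => hv.1, fun hv => ⟨hv, Or.inl hs⟩⟩
        rw [h1]
        exact M.hM.ex.deg2 s (F.YU (hXC hs).1)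
    · -- C2
      intro Y' hY' h2
      by_cases hpY' : p ∈ Y'
      · have h3 := Set.ncard_le_ncard (hTpN Y' hY' hpY') (Set.toFinite _)
        omega
      · have hYX : Y' ⊆ XX := fun x hx => (hY' hx).resolve_left (fun e => hpY' (e ▸ hx))
        rw [Nb_ZZ hYX]
        exact gmin_three_le F.hM (F.cc_U (hYX.trans hXC)) (F.cc_bal (hYX.trans hXC)) h2
  have hall := theoremD Z κh _ _ hsoc
  have hfr := hall q (by simp [hT]) h (by simp [hT]) z (by simp [hT]) n3 (by simp [hT])
    F.hq.symm hzq.symm n3q.symm hzh.symm M.hn3 hz3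
  have hfr' : Frame Z κh q h z n3 := (frameE_iff_frame hprop).1 hfr
  have hsuppZ : ∀ x ∈ supp Z, x ∈ XX ∨ x = p ∨ x ∈ T := by
    rintro x ⟨w, hw⟩
    rcases hsoc.edge_mem x w hw with (h1 | h1) | h1
    · exact Or.inr (Or.inl h1)
    · exact Or.inl h1
    · exact Or.inr (Or.inr h1)
  refine M.hM.bad (Frame.realize (cG := One V) hZle (fun _ _ => rfl) (Walk.cons aqh Walk.nil) Q
    ?_ hQ ?_ ?_ ?_ ?_ ?_ hfr')
  · rw [Walk.cons_isPath_iff]
    exact ⟨Walk.IsPath.nil, by simpa using F.hq.symm⟩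
  · rw [wt_cons, wt_nil]
    show (1 : ZMod 2) + 0 = 1 + κh q + κh h
    rw [kh, kn q F.hq.symm]
    generalize κ q = a
    revert a
    decide
  · rw [hQw]
    show κ z + κ n3 + 1 = 1 + κh z + κh n3
    rw [kn z hzh, kn n3 M.hn3.symm]
    ring
  · intro x hx hx'
    simp only [Walk.support_cons, Walk.support_nil, List.mem_cons, List.not_mem_nil,
      or_false] at hx
    rcases hx with hx | hx
    · exact (hQs x hx').2.2.1 hx
    · exact (hQs x hx').2.2.2 hx
  · intro x hx _
    simpa only [Walk.support_cons, Walk.support_nil, List.mem_cons, List.not_mem_nil,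
      or_false] using hx
  · intro x hx hxs
    obtain ⟨g1, g2, g3, g4⟩ := hQs x hx
    rcases hsuppZ x hxs with h1 | h1 | h1 | h1 | h1 | h1
    · exact absurd h1 g1
    · exact absurd h1 g2
    · exact Or.inl h1
    · exact Or.inr h1
    · exact absurd h1 g3
    · exact absurd h1 g4

/-- **F2c, last case.** -/
theorem L2.contra [Finite V] (L : L2 G U Y κ h p q n1 n2 n3) : False := by
  obtain ⟨X, h1, h2⟩ := L.exists_max
  exact L2M.contra (X := X) ⟨L, h1, h2⟩

end Pool.Agent.Helper41.F2
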