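import Pool.Agent.Helper41.F2.Defs
import Pool.Agent.Helper73.C3.Flex

/-!
# The inconsistent outer links of F2c
-/

set_option autoImplicit false

namespace Pool.Agent.Helper41.F2

open SimpleGraph Pool.Agent.Helper57.TOK Pool.Agent.Helper57.TD Pool.Agent.Helper57.TOP
  Pool.Agent.Helper82.TK Pool.Agent.Helper1.TD Pool.Agent.Helper1.GL Pool.Agent.Helper73.C3

variable {V : Type*}

/-- Either a path of label `t` through `R`, or a potential of `R` with the other label. -/
theorem flex_or [Finite V] {G : SimpleGraph V} {c : Sym2 V → ZMod 2} {U R : Set V} {a b k m : V}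
    (hconn : ∀ Y ⊆ U, 2 ≤ Y.ncard → (Nb G Y).ncard ≤ 2 → (U \ (Y ∪ Nb G Y)).ncard ≤ 1)
    (hR : R ⊆ U) (hN : ∀ x ∈ Nb G R, x = a ∨ x = b ∨ x = k) (hkR : k ∉ R)
    (haU : a ∈ U) (hbU : b ∈ U)
    (hab : a ≠ b) (hak : a ≠ k) (hbk : b ≠ k) (hmU : m ∈ U) (hmR : m ∉ R) (hmN : m ∉ Nb G R)
    (ham : a ≠ m) (hbm : b ≠ m) (hkm : k ≠ m) (t : ZMod 2) :
    (∃ p : G.Walk a b, p.IsPath ∧ wt c p = t ∧
      ∀ x ∈ p.support, (x ∈ R ∨ x = a ∨ x = b) ∧ x ≠ k) ∨
    ∃ κ' : V → ZMod 2, (∀ u v, u ∈ R → v ≠ k → G.Adj u v → c s(u, v) = κ' u + κ' v) ∧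
      κ' a + κ' b = t + 1 := by
  classical
  set H : SimpleGraph V := delG (restr G R) {k} with hH
  have hHadj : ∀ {x y}, H.Adj x y ↔ G.Adj x y ∧ (x ∈ R ∨ y ∈ R) ∧ x ≠ k ∧ y ≠ k := by
    intro x y
    rw [hH, delG_adj, restr_adj, Set.mem_singleton_iff, Set.mem_singleton_iff]
    tauto
  have hHR : ∀ x y, H.Adj x y → y ∈ R ∨ y = a ∨ y = b := by
    intro x y hxy
    rw [hHadj] at hxy
    obtain ⟨h1, h2, -, h4⟩ := hxy
    by_cases hy : y ∈ R
    · exact Or.inl hy
    · have h3 : y ∈ Nb G R := ⟨hy, x, h2.resolve_right hy, h1⟩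
      rcases hN y h3 with h3 | h3 | h3
      · exact Or.inr (Or.inl h3)
      · exact Or.inr (Or.inr h3)
      · exact absurd h3 h4
  have hk0 : ∀ x, ¬ H.Adj k x := fun x h => (hHadj.1 h).2.2.1 rfl
  have hm0 : ∀ x, ¬ H.Adj m x := by
    intro x h
    rcases hHR x m h.symm with h1 | h1 | h1
    · exact hmR h1
    · exact ham h1.symm
    · exact hbm h1.symm
  rcases one_path (H := H) (c := c) hab hak ham hbk hbm hkm hk0 hm0 t with
    ⟨P, hP, hPw⟩ | ⟨A1, ρ, haA, hbA, hkA, hmA, hρ, hedge, hwalk⟩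
  · left
    have hle : H ≤ G := fun x y hxy => (hHadj.1 hxy).1
    refine ⟨P.mapLe hle, hP.mapLe hle, ?_, ?_⟩
    · rw [wt_mapLe]; exact hPw
    · intro x hx
      rw [Walk.support_mapLe_eq_support] at hx
      have h1 : ∀ x ∈ P.support, x ∈ {x | (x ∈ R ∨ x = a ∨ x = b) ∧ x ≠ k} := by
        apply walk_closed _ P
        · exact ⟨Or.inr (Or.inl rfl), hak⟩
        · intro x y _ hxy
          exact ⟨hHR x y hxy, (hHadj.1 hxy).2.2.2⟩
      exact h1 x hx
  · right
    -- no edge between outside vertices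
    have hout : ∀ x y, x ∈ R → x ∉ A1 → y ∉ A1 → ¬ H.Adj x y := by
      intro x y hxR hxA hyA hxy
      set C : Set V := Reach H {x} A1 with hC
      have hxC : x ∈ C := reach_of_mem rfl hxA
      have hyC : y ∈ C := reach_adj hxC hxy hyA
      have hCA : ∀ z ∈ C, z ∉ A1 := fun z hz => not_mem_of_reach hz
      have hCR : C ⊆ R := by
        intro z hz
        have hzA := hCA z hz
        obtain ⟨w, hw, p, hp⟩ := hz
        rw [Set.mem_singleton_iff] at hw
        subst hw
        have h1 : z ∈ {z | z ∈ R ∨ z = a ∨ z = b} :=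
          walk_closed (fun u v _ huv => hHR u v huv) p (Or.inl hxR) z p.end_mem_support
        rcases h1 with h1 | h1 | h1
        · exact h1
        · exact absurd (h1 ▸ haA) hzA
        · exact absurd (h1 ▸ hbA) hzA
      -- neighbours of C
      have hNC : ∀ w ∈ Nb G C, w = k ∨ (w ∈ A1 ∧ w ∈ Nb H C) := by
        rintro w ⟨hwC, z, hz, hzw⟩
        by_cases hwk : w = k
        · exact Or.inl hwk
        right
        have hzR := hCR hz
        have hzk : z ≠ k := fun h => hkR (h ▸ hzR)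
        have h1 : H.Adj z w := hHadj.2 ⟨hzw, Or.inl hzR, hzk, hwk⟩
        refine ⟨?_, hwC, z, hz, h1⟩
        by_contra hwA
        exact hwC (reach_adj hz h1 hwA)
      have huq : ∀ w ∈ Nb G C, ∀ w' ∈ Nb G C, w ≠ k → w' ≠ k → w = w' := by
        intro w hw w' hw' h1 h2
        by_contra hne
        obtain ⟨h3, -, u', ⟨s, hs, p, hp⟩, huw⟩ := (hNC w hw).resolve_left h1
        obtain ⟨h4, -, v', ⟨s', hs', q, hq⟩, hvw⟩ := (hNC w' hw').resolve_left h2
        rw [Set.mem_singleton_iff] at hs hs'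
        subst hs
        subst hs'
        refine hwalk w h3 w' h4 hne u' v' huw.symm hvw.symm (p.reverse.append q) ?_
        intro z hz
        rw [Walk.mem_support_append_iff, Walk.support_reverse, List.mem_reverse] at hz
        rcases hz with hz | hz
        · exact hp z hz
        · exact hq z hz
      have hN2 : (Nb G C).ncard ≤ 2 := by
        by_cases hex : ∃ w ∈ Nb G C, w ≠ k
        · obtain ⟨w, hw, hwk⟩ := hex
          have h1 : Nb G C ⊆ {k, w} := by
            intro z hz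
            by_cases hzk : z = k
            · exact Or.inl hzk
            · exact Or.inr (huq z hz w hw hzk hwk)
          exact (Set.ncard_le_ncard h1 (Set.toFinite _)).trans (ncard_pair_le' _ _)
        · push Not at hex
          have h1 : Nb G C ⊆ {k, k} := fun z hz => Or.inl (hex z hz)
          exact (Set.ncard_le_ncard h1 (Set.toFinite _)).trans (ncard_pair_le' _ _)
      have hr := hconn C (hCR.trans hR) (two_le_ncard_of hxC hyC hxy.ne) hN2
      have hmr : m ∈ U \ (C ∪ Nb G C) := by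
        refine ⟨hmU, ?_⟩
        rintro (h1 | h1)
        · exact hmR (hCR h1)
        · obtain ⟨-, z, hz, hzm⟩ := h1
          exact hmN ⟨hmR, z, hCR hz, hzm⟩
      have hab' : ∀ z, z ∈ U → z ∈ A1 → z ∉ Nb G C → z = m := by
        intro z hz hzA hzN
        apply eq_of_ncard_le_one hr _ hmr
        refine ⟨hz, ?_⟩
        rintro (h1 | h1)
        · exact hCA z h1 hzA
        · exact hzN h1
      by_cases h1 : a ∈ Nb G C
      · by_cases h2 : b ∈ Nb G C
        · exact hab (huq a h1 b h2 hak hbk)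
        · exact hbm (hab' b hbU hbA h2)
      · exact ham (hab' a haU haA h1)
    have huniq : ∀ x y y', x ∉ A1 → y ∈ A1 → y' ∈ A1 → H.Adj x y → H.Adj x y' → y = y' := by
      intro x y y' hx hy hy' hxy hxy'
      by_contra hne
      refine hwalk y hy y' hy' hne x x hxy.symm hxy'.symm Walk.nil ?_
      intro z hz
      simp only [Walk.support_nil, List.mem_cons, List.not_mem_nil, or_false] at hz
      rw [hz]
      exact hx
    have hw : ∀ x, ∃ w, (∃ w', w' ∈ A1 ∧ H.Adj x w') → (w ∈ A1 ∧ H.Adj x w) := by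
      intro x
      by_cases hex : ∃ w', w' ∈ A1 ∧ H.Adj x w'
      · obtain ⟨w, hw⟩ := hex
        exact ⟨w, fun _ => hw⟩
      · exact ⟨x, fun h1 => absurd h1 hex⟩
    choose f hf using hw
    set κ' : V → ZMod 2 := fun x => if x ∈ A1 then ρ x else ρ (f x) + c s(x, f x) with hκ'
    have k1 : ∀ x, x ∈ A1 → κ' x = ρ x := by
      intro x hx; rw [hκ']; simp only [if_pos hx]
    have k2 : ∀ x, x ∉ A1 → κ' x = ρ (f x) + c s(x, f x) := by
      intro x hx; rw [hκ']; simp only [if_neg hx]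
    have g1 : ∀ x y, x ∉ A1 → y ∈ A1 → H.Adj x y → c s(x, y) = κ' x + κ' y := by
      intro x y hx hy hxy
      have h1 := hf x ⟨y, hy, hxy⟩
      have h2 := huniq x (f x) y hx h1.1 hy h1.2 hxy
      rw [k2 x hx, k1 y hy, h2, add_comm (ρ y), add_assoc, CharTwo.add_self_eq_zero, add_zero]
    refine ⟨κ', ?_, by rw [k1 a haA, k1 b hbA]; exact hρ⟩
    intro u v hu hvk huv
    have huk : u ≠ k := fun h => hkR (h ▸ hu)
    have hH' : H.Adj u v := hHadj.2 ⟨huv, Or.inl hu, huk, hvk⟩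
    by_cases huA : u ∈ A1
    · by_cases hvA : v ∈ A1
      · rw [k1 u huA, k1 v hvA]; exact hedge u huA v hvA hH'
      · rw [Sym2.eq_swap, add_comm]; exact g1 v u hvA huA hH'.symm
    · by_cases hvA : v ∈ A1
      · exact g1 u v huA hvA hH'
      · exact absurd hH' (hout u v hu huA hvA)

/-- The rest. -/
def RR (U Y : Set V) (h n1 n2 n3 : V) : Set V :=
  {x | x ∈ U ∧ x ∉ Y ∧ x ≠ h ∧ x ≠ n1 ∧ x ≠ n2 ∧ x ≠ n3}

section

variable {G : SimpleGraph V} {U Y : Set V} {κ : V → ZMod 2} {h p q n1 n2 n3 : V}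

lemma F2.n1U (F : F2 G U Y κ h p q n1 n2 n3) : n1 ∈ U := by
  obtain ⟨y, -, hy⟩ := F.a1
  exact F.hM.ex.edge_mem _ _ hy.symm

lemma F2.n2U (F : F2 G U Y κ h p q n1 n2 n3) : n2 ∈ U := by
  obtain ⟨y, -, hy⟩ := F.a2
  exact F.hM.ex.edge_mem _ _ hy.symm

lemma F2.n3U (F : F2 G U Y κ h p q n1 n2 n3) : n3 ∈ U := by
  obtain ⟨y, -, hy⟩ := F.a3
  exact F.hM.ex.edge_mem _ _ hy.symm

lemma F2.hU (F : F2 G U Y κ h p q n1 n2 n3) : h ∈ U :=
  F.hM.ex.edge_mem _ _ ((F.adj_h p).2 (Or.inl rfl))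

lemma F2.nbR (F : F2 G U Y κ h p q n1 n2 n3) : ∀ x ∈ Nb G (RR U Y h n1 n2 n3),
    x = n1 ∨ x = n2 ∨ x = n3 := by
  rintro x ⟨hx, u, hu, hux⟩
  have hxU : x ∈ U := F.hM.ex.edge_mem _ _ hux.symm
  by_contra hcon
  push Not at hcon
  apply hx
  refine ⟨hxU, ?_, ?_, hcon.1, hcon.2.1, hcon.2.2⟩
  · intro hxY
    rcases F.nb x hxY u hux.symm with h1 | h1 | h1 | h1 | h1
    · exact hu.2.1 h1
    · exact hu.2.2.1 h1
    · exact hu.2.2.2.1 h1
    · exact hu.2.2.2.2.1 h1
    · exact hu.2.2.2.2.2 h1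
  · rintro rfl
    rcases (F.adj_h u).1 hux.symm with h1 | h1
    · exact hu.2.1 (h1 ▸ F.pY)
    · exact hu.2.1 (h1 ▸ F.qY)

/-- **Inconsistent outer link** between `n1` and `n2` which avoids `n3`. -/
theorem F2.link12 [Finite V] (F : F2 G U Y κ h p q n1 n2 n3) :
    ∃ P : G.Walk n1 n2, P.IsPath ∧ wt (One V) P = κ n1 + κ n2 + 1 ∧
      ∀ x ∈ P.support, x = n1 ∨ x = n2 ∨ x ∈ RR U Y h n1 n2 n3 := by
  classical
  by_cases hedge : G.Adj n1 n2 ∧ κ n1 = κ n2
  · refine ⟨Walk.cons hedge.1 Walk.nil, ?_, ?_, ?_⟩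
    · rw [Walk.cons_isPath_iff]
      refine ⟨Walk.IsPath.nil, ?_⟩
      simpa using F.n12
    · rw [wt_cons, wt_nil, add_zero, hedge.2, CharTwo.add_self_eq_zero, zero_add]
    · intro x hx
      simp only [Walk.support_cons, Walk.support_nil, List.mem_cons, List.not_mem_nil,
        or_false] at hx
      rcases hx with hx | hx
      · exact Or.inl hx
      · exact Or.inr (Or.inl hx)
  have hpN : p ∉ Nb G (RR U Y h n1 n2 n3) := by
    intro hp
    rcases F.nbR p hp with h1 | h1 | h1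
    · exact F.n1Y (h1 ▸ F.pY)
    · exact F.n2Y (h1 ▸ F.pY)
    · exact F.n3Y (h1 ▸ F.pY)
  rcases flex_or (G := G) (c := One V) (U := U) (R := RR U Y h n1 n2 n3) (a := n1) (b := n2)
    (k := n3) (m := p) F.hM.ex.conn (fun x hx => hx.1) F.nbR (fun hx => hx.2.2.2.2.2 rfl)
    F.n1U F.n2U F.n12 F.n13 F.n23 (F.YU F.pY) (fun hx => hx.2.1 F.pY) hpN
    (fun h1 => F.n1Y (h1 ▸ F.pY)) (fun h1 => F.n2Y (h1 ▸ F.pY)) (fun h1 => F.n3Y (h1 ▸ F.pY))
    (κ n1 + κ n2 + 1) with ⟨P, hP, hw, hs⟩ | ⟨κ', hκ', hsum⟩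
  · refine ⟨P, hP, hw, ?_⟩
    intro x hx
    rcases (hs x hx).1 with h1 | h1 | h1
    · exact Or.inr (Or.inr h1)
    · exact Or.inl h1
    · exact Or.inr (Or.inl h1)
  · exfalso
    set R := RR U Y h n1 n2 n3 with hR
    have hsum' : κ' n1 + κ' n2 = κ n1 + κ n2 := by
      rw [hsum]
      generalize κ n1 = a
      generalize κ n2 = b
      revert a b
      decide
    have n1R : n1 ∉ R := fun hx => hx.2.2.2.1 rfl
    have n2R : n2 ∉ R := fun hx => hx.2.2.2.2.1 rfl
    have key : ∀ u v, u ∈ R → v ≠ n3 → G.Adj u v →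
        (κ' u + κ' n1 + κ n1) ≠ (if v ∈ R then κ' v + κ' n1 + κ n1 else κ v) := by
      intro u v hu hv3 huv
      have h1 : (1 : ZMod 2) = κ' u + κ' v := hκ' u v hu hv3 huv
      by_cases hvR : v ∈ R
      · rw [if_pos hvR]
        revert h1
        generalize κ' u = a
        generalize κ' v = b
        generalize κ' n1 = d
        generalize κ n1 = e
        revert a b d e
        decide
      · rw [if_neg hvR]
        rcases F.nbR v ⟨hvR, u, hu, huv⟩ with rfl | rfl | h2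
        · revert h1
          generalize κ' u = a
          generalize κ' v = b
          generalize κ v = d
          revert a b d
          decide
        · revert h1 hsum'
          generalize κ' u = a
          generalize κ' v = b
          generalize κ v = d
          generalize κ' n1 = e
          generalize κ n1 = f
          revert a b d e f
          decide
        · exact absurd h2 hv3
    refine gmin_ind3 F.hM h n3 (fun x => if x ∈ R then κ' x + κ' n1 + κ n1 else κ x) ?_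
    intro u v hu1 hu2 hv1 hv2 huv
    show (if u ∈ R then κ' u + κ' n1 + κ n1 else κ u) ≠
      (if v ∈ R then κ' v + κ' n1 + κ n1 else κ v)
    by_cases huR : u ∈ R
    · rw [if_pos huR]
      exact key u v huR hv2 huv
    by_cases hvR : v ∈ R
    · have h1 := key v u hvR hu2 huv.symm
      rw [if_pos hvR]
      exact h1.symm
    rw [if_neg huR, if_neg hvR]
    by_cases huY : u ∈ Y
    · exact F.bal u huY v hv1 huv
    by_cases hvY : v ∈ Y
    · exact (F.bal v hvY u hu1 huv.symm).symm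
    have cls : ∀ x, x ∈ U → x ∉ R → x ∉ Y → x ≠ h → x ≠ n3 → x = n1 ∨ x = n2 := by
      intro x h1 h2 h3 h4 h5
      by_contra hcon
      push Not at hcon
      exact h2 ⟨h1, h3, h4, hcon.1, hcon.2, h5⟩
    have huU := F.hM.ex.edge_mem _ _ huv
    have hvU := F.hM.ex.edge_mem _ _ huv.symm
    rcases cls u huU huR huY hu1 hu2 with rfl | rfl <;>
      rcases cls v hvU hvR hvY hv1 hv2 with rfl | rfl
    · exact absurd rfl huv.ne
    · exact fun h1 => hedge ⟨huv, h1⟩
    · exact fun h1 => hedge ⟨huv.symm, h1.symm⟩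
    · exact absurd rfl huv.ne

end

end Pool.Agent.Helper41.F2
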