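import Pool.Agent.Helper41.F2.Last4
import Pool.Agent.Helper94.F2.Defs

/-!
# The last case in the form of the F2c skeleton
-/

set_option autoImplicit false

namespace Pool.Agent.Helper94.F2

open SimpleGraph Pool.Agent.Helper57.TOK Pool.Agent.Helper57.TD Pool.Agent.Helper57.TOP
  Pool.Agent.Helper82.TK Pool.Agent.Helper41.F2

variable {V : Type*} {G : SimpleGraph V} {U Y : Set V} {κ : V → ZMod 2} {h p q n1 n2 n3 : V}

/-- The last case. -/
theorem Sq.last' [Finite V] (F : Sq G U Y κ h p q n1 n2 n3) (h1 : κ n1 = κ p) (h2 : κ n2 = κ p)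
    (h3 : κ n3 = κ q) (a1 : G.Adj q n1) (a2 : G.Adj q n2) (a3 : G.Adj p n3) : False :=
  L2.contra ⟨F.toF2, h1, h2, h3, a1, a2, a3⟩

end Pool.Agent.Helper94.F2
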